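import Pool.Agent.Helper82.MS.Dim1

set_option autoImplicit false
set_option linter.unusedSectionVars false
set_option maxHeartbeats 4000000

open Set Filter Topology Metric
open scoped NNReal

namespace Pool.Agent.Helper82.MS

variable {M : Type*} [MetricSpace M] [CompactSpace M]

section one

variable {E : Type*} [NormedAddCommGroup E] [NormedSpace ℝ E] [FiniteDimensional ℝ E]

theorem HypAt.dim_one {g : M ≃ₜ M} {p : M} (h : HypAt E g p) (hE : Module.finrank ℝ E = 1) :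
    IsSrc E g p ∨ IsSrc E g.symm p := by
  obtain ⟨hp, e, L, Es, Eu, hpe, he0, hG, hc, hs, hu⟩ := h
  have hsum := Submodule.finrank_add_eq_of_isCompl hc
  rw [hE] at hsum
  by_cases hbot : Module.finrank ℝ Eu = 0
  · right
    have hEu : Eu = ⊥ := Submodule.finrank_eq_zero.1 hbot
    have hEs : Es = ⊤ := by
      have := hc.sup_eq_top
      rwa [hEu, sup_bot_eq] at this
    have hG' := strict_symm g hp e hpe he0 L hG
    obtain ⟨Φ, hΦ, hΦ0⟩ := exists_sourceModel g.symm p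
      (by rw [Homeomorph.symm_apply_eq]; exact hp.symm) e hpe he0 L.symm hG' (fun x => by
        have := (hs (L.symm x) (by rw [hEs]; trivial)).2.2
        rwa [L.apply_symm_apply] at this)
    exact ⟨Φ, L.symm, hΦ, hΦ0⟩
  · left
    have hEs0 : Es = ⊥ := Submodule.finrank_eq_zero.1 (by omega)
    have hEu : Eu = ⊤ := by
      have := hc.sup_eq_top
      rwa [hEs0, bot_sup_eq] at this
    obtain ⟨Φ, hΦ, hΦ0⟩ := exists_sourceModel g p hp e hpe he0 L hG (fun x =>
      (hu x (by rw [hEu]; trivial)).2.2)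
    exact ⟨Φ, L, hΦ, hΦ0⟩

theorem not_src_and_sink [Nontrivial E] {g : M ≃ₜ M} {Φ Ψ : E → M} {L L' : E ≃L[ℝ] E}
    (h : SourceModel g Φ L) (h' : SourceModel g.symm Ψ L') : Φ 0 ≠ Ψ 0 := by
  intro h0
  have h1 : Φ ⁻¹' range Ψ ∈ 𝓝 (0 : E) :=
    (h'.emb.isOpen_range.preimage h.emb.continuous).mem_nhds (by rw [mem_preimage, h0]; exact ⟨0, rfl⟩)
  obtain ⟨y, hy, hy0⟩ : ∃ y : E, y ∈ Φ ⁻¹' range Ψ ∧ y ≠ 0 := by
    have h2 : ∀ᶠ y in 𝓝[≠] (0 : E), y ∈ Φ ⁻¹' range Ψ := nhdsWithin_le_nhds h1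
    have : (𝓝[≠] (0 : E)).NeBot := Module.punctured_nhds_neBot ℝ E 0
    obtain ⟨y, hy, hy'⟩ := (h2.and self_mem_nhdsWithin).exists
    exact ⟨y, hy, hy'⟩
  obtain ⟨z, hz⟩ := hy
  have h3 := h'.tendsto_of_mem_range z
  rw [hz, Homeomorph.symm_symm, ← h0] at h3
  exact hy0 (h.emb.injective (h.eq_of_tendsto h3))

theorem SourceModel.eq_zero_of_fix {g : M ≃ₜ M} {Φ : E → M} {L : E ≃L[ℝ] E}
    (h : SourceModel g Φ L) {x : M} (hx : g.symm x = x) (hxr : x ∈ range Φ) : x = Φ 0 := by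
  obtain ⟨y, rfl⟩ := hxr
  have h1 := h.tendsto_of_mem_range y
  have h2 : ∀ n : ℕ, g.symm^[n] (Φ y) = Φ y := fun n => Function.iterate_fixed hx n
  simp only [h2] at h1
  exact tendsto_nhds_unique tendsto_const_nhds h1

theorem SourceModel.eq_of_mem_range {g : M ≃ₜ M} {Φ Φ' : E → M} {L L' : E ≃L[ℝ] E}
    (h : SourceModel g Φ L) (h' : SourceModel g Φ' L') {x : M} (hx : x ∈ range Φ)
    (hx' : x ∈ range Φ') : Φ 0 = Φ' 0 := by
  obtain ⟨y, rfl⟩ := hx
  obtain ⟨z, hz⟩ := hx'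
  have h1 := h.tendsto_of_mem_range y
  have h2 := h'.tendsto_of_mem_range z
  rw [hz] at h2
  exact tendsto_nhds_unique h1 h2

theorem no_shadowing_dim1 {g : M ≃ₜ M} {F : Set M} (hF : F.Finite) (hfix : ∀ p ∈ F, g p = p)
    (hconv : ∀ x, ∃ p ∈ F, Tendsto (fun n : ℕ => g^[n] x) atTop (𝓝 p))
    (hconv' : ∀ x, ∃ p ∈ F, Tendsto (fun n : ℕ => g.symm^[n] x) atTop (𝓝 p))
    (hhyp : ∀ p ∈ F, IsSrc E g p ∨ IsSrc E g.symm p) (hE : Module.finrank ℝ E = 1)
    {r : M} (hr : r ∈ F) (hrs : IsSrc E g r) : ¬ HasShadowing (inducedMap g g.continuous) := by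
  classical
  have hnt : Nontrivial E := Module.nontrivial_of_finrank_pos (R := ℝ) (by omega)
  let c : ℝ ≃L[ℝ] E := ContinuousLinearEquiv.ofFinrankEq (by rw [hE, Module.finrank_self])
  let I := {p : M // p ∈ F ∧ IsSrc E g p}
  let J := {p : M // p ∈ F ∧ IsSrc E g.symm p}
  have hIfin : Finite I := (hF.subset (fun p hp => hp.1 : {p : M | p ∈ F ∧ IsSrc E g p} ⊆ F)).to_subtype
  have hJfin : Finite J :=
    (hF.subset (fun p hp => hp.1 : {p : M | p ∈ F ∧ IsSrc E g.symm p} ⊆ F)).to_subtype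
  have : Fintype I := Fintype.ofFinite I
  have : Fintype J := Fintype.ofFinite J
  have hfix' : ∀ p ∈ F, g.symm p = p := fun p hp => by
    rw [Homeomorph.symm_apply_eq]; exact (hfix p hp).symm
  choose Φ L hΦ using fun i : I => i.2.2
  choose Ψ L' hΨ using fun j : J => j.2.2
  have hc : ∀ (X : E → M), range (fun t : ℝ => X (c t)) = range X := by
    intro X
    ext x
    constructor
    · rintro ⟨t, rfl⟩; exact ⟨_, rfl⟩
    · rintro ⟨y, rfl⟩; exact ⟨c.symm y, by simp⟩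
  let i0 : I := ⟨r, hr, hrs⟩
  have hemb : ∀ {X : E → M}, IsOpenEmbedding X → IsOpenEmbedding (fun t : ℝ => X (c t)) :=
    fun hX => hX.comp c.toHomeomorph.isOpenEmbedding
  have hz : ∀ X : E → M, (fun t : ℝ => X (c t)) 0 = X 0 := fun X => by simp
  obtain ⟨Q, hQ1, hQ2, hQ3, hQ4, hQ5⟩ := parity (I := I) (J := J) F
    (fun i t => Φ i (c t)) (fun j t => Ψ j (c t)) (fun i => hemb (hΦ i).1.emb)
    (fun j => hemb (hΨ j).1.emb)
    (fun i => by simp only [map_zero]; rw [(hΦ i).2]; exact i.2.1)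
    (fun j => by simp only [map_zero]; rw [(hΨ j).2]; exact j.2.1)
    (fun i x hx hxr => by
      simp only [map_zero]
      rw [hc (Φ i)] at hxr
      exact (hΦ i).1.eq_zero_of_fix (hfix' x hx) hxr)
    (fun j x hx hxr => by
      simp only [map_zero]
      rw [hc (Ψ j)] at hxr
      exact (hΨ j).1.eq_zero_of_fix (by rw [Homeomorph.symm_symm]; exact hfix x hx) hxr)
    (fun i j hij => by
      rw [hc (Φ i), hc (Φ j), Set.disjoint_left]
      intro x hx hx'
      apply hij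
      apply Subtype.ext
      rw [← (hΦ i).2, ← (hΦ j).2]
      exact (hΦ i).1.eq_of_mem_range (hΦ j).1 hx hx')
    (fun i j hij => by
      rw [hc (Ψ i), hc (Ψ j), Set.disjoint_left]
      intro x hx hx'
      apply hij
      apply Subtype.ext
      rw [← (hΨ i).2, ← (hΨ j).2]
      exact (hΨ i).1.eq_of_mem_range (hΨ j).1 hx hx')
    (fun x hx => by
      obtain ⟨p, hp, hlim⟩ := hconv' x
      rcases hhyp p hp with h | h
      · refine ⟨⟨p, hp, h⟩, ?_⟩
        rw [hc (Φ ⟨p, hp, h⟩)]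
        apply (hΦ ⟨p, hp, h⟩).1.mem_range_of_tendsto
        rw [(hΦ ⟨p, hp, h⟩).2]
        exact hlim
      · exfalso
        have h1 := hΨ ⟨p, hp, h⟩
        have h2 := h1.1.eq_of_tendsto (x := x) (by rw [h1.2]; exact hlim)
        rw [h1.2] at h2
        exact hx (h2 ▸ hp))
    (fun x hx => by
      obtain ⟨p, hp, hlim⟩ := hconv x
      rcases hhyp p hp with h | h
      · exfalso
        have h1 := hΦ ⟨p, hp, h⟩
        have h2 := h1.1.eq_of_tendsto (x := x) (by rw [h1.2]; exact hlim)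
        rw [h1.2] at h2
        exact hx (h2 ▸ hp)
      · refine ⟨⟨p, hp, h⟩, ?_⟩
        rw [hc (Ψ ⟨p, hp, h⟩)]
        apply (hΨ ⟨p, hp, h⟩).1.mem_range_of_tendsto
        rw [(hΨ ⟨p, hp, h⟩).2, Homeomorph.symm_symm]
        exact hlim)
    (fun i j => by
      simp only [map_zero]
      exact not_src_and_sink (hΦ i).1 (hΨ j).1)
    i0 (s := -1) (t := 3) (by norm_num) (by norm_num)
  have h := (hΦ i0).1
  set Φ0 := Φ i0 with hΦ0
  have hcv : ∀ t : ℝ, c t = t • c 1 := by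
    intro t
    rw [← map_smul, smul_eq_mul, mul_one]
  have hv : c 1 ≠ 0 := by
    intro h0
    have := c.injective (h0.trans (map_zero c).symm)
    exact one_ne_zero this
  have hvn : 0 < ‖c 1‖ := norm_pos_iff.2 hv
  -- the points of the open unit ball
  have hball : ∀ x : E, ‖x‖ < ‖c 1‖ → ∃ t : ℝ, |t| < 1 ∧ x = c t := by
    intro x hx
    refine ⟨c.symm x, ?_, by simp⟩
    have h1 : x = (c.symm x) • c 1 := by rw [← hcv]; simp
    rw [h1, norm_smul, Real.norm_eq_abs] at hx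
    by_contra hcon
    push Not at hcon
    nlinarith
  have hcont : Continuous fun t : ℝ => Φ0 (c t) := h.emb.continuous.comp c.continuous
  -- the arc is contained in the basin of one sink
  have hσr : ∃ j : J, (fun t : ℝ => Φ0 (c t)) '' Icc 1 3 ⊆ range (Ψ j) := by
    -- the ray is connected and covered by the disjoint open basins
    have hcov : ∀ t ∈ Ioi (0 : ℝ), ∃ j : J, Φ0 (c t) ∈ range (Ψ j) := by
      intro t ht
      obtain ⟨p, hp, hlim⟩ := hconv (Φ0 (c t))
      rcases hhyp p hp with h' | h'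
      · exfalso
        have h1 := hΦ ⟨p, hp, h'⟩
        have h2 := h1.1.eq_of_tendsto (by rw [h1.2]; exact hlim)
        have h3 : g.symm (Φ0 (c t)) = Φ0 (c t) := by
          rw [h2, h1.2]; exact hfix' p hp
        have h4 := h.eq_zero_of_fix h3 ⟨_, rfl⟩
        have h5 := h.emb.injective h4
        have h6 : t = 0 := c.injective (h5.trans (map_zero c).symm)
        rw [h6] at ht
        exact lt_irrefl (0 : ℝ) (mem_Ioi.1 ht)
      · refine ⟨⟨p, hp, h'⟩, ?_⟩
        apply (hΨ ⟨p, hp, h'⟩).1.mem_range_of_tendsto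
        rw [(hΨ ⟨p, hp, h'⟩).2, Homeomorph.symm_symm]
        exact hlim
    obtain ⟨j, hj⟩ := hcov 1 (by simp)
    refine ⟨j, ?_⟩
    have hpre : IsPreconnected ((fun t : ℝ => Φ0 (c t)) '' Ioi 0) :=
      isPreconnected_Ioi.image _ hcont.continuousOn
    have hsub : (fun t : ℝ => Φ0 (c t)) '' Ioi 0 ⊆ range (Ψ j) := by
      refine IsPreconnected.subset_left_of_subset_union (hΨ j).1.emb.isOpen_range
        (isOpen_iUnion fun k : {k : J // k ≠ j} => (hΨ k.1).1.emb.isOpen_range) ?_ ?_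
        ⟨Φ0 (c 1), ⟨1, by simp, rfl⟩, hj⟩ hpre
      · rw [Set.disjoint_iUnion_right]
        intro k
        rw [Set.disjoint_left]
        intro x hx hx'
        apply k.2
        apply Subtype.ext
        rw [← (hΨ k.1).2, ← (hΨ j).2]
        exact (hΨ k.1).1.eq_of_mem_range (hΨ j).1 hx' hx
      · rintro _ ⟨t, ht, rfl⟩
        obtain ⟨k, hk⟩ := hcov t ht
        by_cases hkj : k = j
        · exact Or.inl (hkj ▸ hk)
        · exact Or.inr (mem_iUnion.2 ⟨⟨k, hkj⟩, hk⟩)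
    exact (image_mono fun t ht => lt_of_lt_of_le one_pos ht.1).trans hsub
  obtain ⟨j, hj⟩ := hσr
  have hcinj : Function.Injective fun t : ℝ => Φ0 (c t) := h.emb.injective.comp c.injective
  refine no_shadowing g Φ0 (L i0) h (c 1) hv {Φ0 (c 1)} Q ((fun t : ℝ => Φ0 (c t)) '' Icc 1 3)
    isCompact_singleton isConnected_singleton hQ1 hQ2 (isCompact_Icc.image hcont)
    ((isConnected_Icc (by norm_num)).image _ hcont.continuousOn) rfl ?_ ?_ ?_ ?_ ?_ ?_ ?_ ?_
  · have : -(c 1) = c (-1) := by rw [map_neg]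
    rw [this]; exact hQ4
  · rw [Set.disjoint_singleton_left]
    intro h1
    exact hQ3 h1 ⟨1, by constructor <;> norm_num, rfl⟩
  · rintro x hx hx'
    obtain ⟨t, ht, rfl⟩ := hball x hx
    have h1 : t = 1 := hcinj hx'
    rw [h1] at ht
    norm_num at ht
  · rintro x hx hx'
    obtain ⟨t, ht, rfl⟩ := hball x hx
    rw [abs_lt] at ht
    exact hQ3 hx' ⟨t, ⟨ht.1, by linarith [ht.2]⟩, rfl⟩
  · rintro x hx ⟨s, hs, hsx⟩
    obtain ⟨t, ht, rfl⟩ := hball x hx
    have h1 : s = t := hcinj hsx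
    rw [abs_lt] at ht
    linarith [ht.2, hs.1]
  · exact ⟨Φ0 (c 1), ⟨1, by constructor <;> norm_num, rfl⟩, rfl⟩
  · exact ⟨Φ0 (c 3), ⟨3, by constructor <;> norm_num, rfl⟩, hQ5⟩
  · intro δ hδ
    obtain ⟨N, hN⟩ := (hΨ j).1.uniform (isCompact_Icc.image hcont) hj (half_pos hδ)
    refine ⟨N, fun n hn x hx z hz => ?_⟩
    have e1 := hN n hn x hx
    have e2 := hN n hn z hz
    rw [Homeomorph.symm_symm] at e1 e2
    have e3 := dist_triangle_right (g^[n] x) (g^[n] z) (Ψ j 0)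
    linarith

end one

section main

variable {E : Type*} [NormedAddCommGroup E] [InnerProductSpace ℝ E] [FiniteDimensional ℝ E]

/-- The abstract theorem. -/
theorem no_shadowing_of_hyp [Nonempty M] (g : M ≃ₜ M) (F : Set M) (hF : F.Finite)
    (hcl : ∀ x y, MapClusterPt y atTop (fun n : ℕ => g^[n] x) → y ∈ F)
    (hcl' : ∀ x y, MapClusterPt y atTop (fun n : ℕ => g.symm^[n] x) → y ∈ F)
    (hhyp : ∀ p ∈ F, HypAt E g p) (hE : 1 ≤ Module.finrank ℝ E) :
    ¬ HasShadowing (inducedMap g g.continuous) := by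
  have hfix : ∀ p ∈ F, g p = p := fun p hp => (hhyp p hp).1
  have hfix' : ∀ p ∈ F, g.symm p = p := fun p hp => by
    rw [Homeomorph.symm_apply_eq]; exact (hfix p hp).symm
  have hconv := tendsto_of_cluster g F hF hfix hcl
  have hconv' := tendsto_of_cluster g.symm F hF hfix' hcl'
  have hD := dense_of_dichotomy g F hF (fun p => IsSrc E g.symm p) hconv
    (fun p hp => (hhyp p hp).dichotomy)
  have hD' := dense_of_dichotomy g.symm F hF (fun p => IsSrc E g p) hconv'
    (fun p hp => by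
      have := (hhyp p hp).symm.dichotomy
      rwa [Homeomorph.symm_symm] at this)
  obtain ⟨-, r, hr, hrs, -⟩ := hD'.nonempty
  rcases Nat.lt_or_ge 1 (Module.finrank ℝ E) with h2 | h1
  · obtain ⟨Φ, L, h, h0⟩ := hrs
    have hnt : Nontrivial E := Module.nontrivial_of_finrank_pos (R := ℝ) (by omega)
    have hopen : IsOpen (Φ '' {0}ᶜ) := h.emb.isOpenMap _ isOpen_compl_singleton
    obtain ⟨u, hu⟩ := exists_ne (0 : E)
    obtain ⟨x, ⟨y, hy, rfl⟩, p, hp, hps, hlim⟩ := hD.inter_open_nonempty _ hopen ⟨Φ u, u, hu, rfl⟩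
    obtain ⟨Ψ, L', h', h0'⟩ := hps
    refine no_shadowing_highdim h h' h2 hy ?_
    apply h'.mem_range_of_tendsto
    rw [h0', Homeomorph.symm_symm]
    exact hlim
  · exact no_shadowing_dim1 hF hfix hconv hconv' (fun p hp => (hhyp p hp).dim_one (by omega))
      (by omega) hr hrs

end main

end Pool.Agent.Helper82.MS
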