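import Mathlib

set_option autoImplicit false

open TopologicalSpace Set Filter Topology
open scoped Manifold ContDiff

namespace Pool.Agent.Helper82.MS

/-- The shadowing property of a map `T` of a metric space: for every `ε > 0` there is `δ > 0`
such that every `δ`-pseudo-orbit `(y n)` is `ε`-shadowed by the orbit of some point. -/
def HasShadowing {Y : Type*} [PseudoMetricSpace Y] (T : Y → Y) : Prop :=
  ∀ ε : ℝ, 0 < ε → ∃ δ : ℝ, 0 < δ ∧
    ∀ y : ℕ → Y, (∀ n, dist (T (y n)) (y (n + 1)) < δ) → ∃ z : Y, ∀ n, dist (T^[n] z) (y n) < ε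

/-- The hyperspace `C(X)` of subcontinua of `X`: the nonempty compact connected subsets of `X`.
For a metric space `X` it carries the Hausdorff metric (inherited from `NonemptyCompacts X`). -/
abbrev Subcontinua (X : Type*) [TopologicalSpace X] : Type _ :=
  {K : NonemptyCompacts X // IsConnected (K : Set X)}

/-- The induced map `C(f) : C(X) → C(X)`, `K ↦ f(K)`. -/
def inducedMap {X : Type*} [TopologicalSpace X] (f : X → X) (hf : Continuous f) :
    Subcontinua X → Subcontinua X :=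
  fun K => ⟨K.1.map f hf, by
    rw [NonemptyCompacts.coe_map]
    exact K.2.image f hf.continuousOn⟩

/-- `x` is a non-wandering point of `f`: every neighbourhood `U` of `x` meets `f^n(U)` for some
`n ≥ 1`. -/
def IsNonwandering {X : Type*} [TopologicalSpace X] (f : X → X) (x : X) : Prop :=
  ∀ U ∈ 𝓝 x, ∃ n : ℕ, 0 < n ∧ (f^[n] '' U ∩ U).Nonempty

/-- A linear endomorphism `A` is hyperbolic: the space is the direct sum of two `A`-invariant
subspaces, with `A` exponentially contracting on the first and exponentially expanding on the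
second. -/
def IsHyperbolicLinear {E : Type*} [NormedAddCommGroup E] [NormedSpace ℝ E] (A : E →L[ℝ] E) :
    Prop :=
  ∃ Es Eu : Submodule ℝ E, IsCompl Es Eu ∧ (∀ v ∈ Es, A v ∈ Es) ∧ (∀ v ∈ Eu, A v ∈ Eu) ∧
    ∃ C lam : ℝ, 0 < lam ∧ lam < 1 ∧
      (∀ v ∈ Es, ∀ n : ℕ, ‖A^[n] v‖ ≤ C * lam ^ n * ‖v‖) ∧
      (∀ v ∈ Eu, ∀ n : ℕ, ‖v‖ ≤ C * lam ^ n * ‖A^[n] v‖)

/-- `f` is a `C^n` diffeomorphism of the `d`-dimensional manifold `M` (modelled on `ℝ^d`, without
boundary). -/
def IsDiffeomorphism (d : ℕ) (n : WithTop ℕ∞) {M : Type*} [TopologicalSpace M]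
    [ChartedSpace (EuclideanSpace ℝ (Fin d)) M] (f : M → M) : Prop :=
  ∃ f' : M → M, Function.LeftInverse f' f ∧ Function.RightInverse f' f ∧
    ContMDiff (𝓡 d) (𝓡 d) n f ∧ ContMDiff (𝓡 d) (𝓡 d) n f'

/-- `p` is a hyperbolic periodic point of the self-map `f` of a `d`-dimensional manifold:
`f^k(p) = p` for some `k ≥ 1`, and the derivative of `f^k` at `p` is hyperbolic. -/
def IsHyperbolicPeriodicPoint (d : ℕ) {M : Type*} [TopologicalSpace M]
    [ChartedSpace (EuclideanSpace ℝ (Fin d)) M] (f : M → M) (p : M) : Prop :=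
  ∃ k : ℕ, 0 < k ∧ f^[k] p = p ∧
    IsHyperbolicLinear (E := EuclideanSpace ℝ (Fin d)) (mfderiv (𝓡 d) (𝓡 d) f^[k] p)

end Pool.Agent.Helper82.MS
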