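import Pool.Agent.Helper82.MS.Model

set_option autoImplicit false
set_option linter.unusedSectionVars false
set_option maxHeartbeats 4000000

open Set Filter Topology Metric
open scoped NNReal

namespace Pool.Agent.Helper82.MS

section topology

variable {M : Type*} [TopologicalSpace M]

theorem partition_sub {ι κ : Type*} (U : ι → Set M) (V : κ → Set M) (hVo : ∀ i, IsOpen (V i))
    (hUc : ∀ i, IsConnected (U i)) (hVd : ∀ i j, i ≠ j → Disjoint (V i) (V j))
    (hcover : (⋃ i, U i) ⊆ ⋃ i, V i) (i : ι) (k : κ) (x : M) (hxi : x ∈ U i) (hxk : x ∈ V k) :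
    U i ⊆ V k := by
  have h1 : U i ⊆ V k ∪ ⋃ k' : {k' // k' ≠ k}, V k'.1 := by
    intro z hz
    obtain ⟨k', hk'⟩ := mem_iUnion.1 (hcover (mem_iUnion.2 ⟨i, hz⟩))
    by_cases h : k' = k
    · exact Or.inl (h ▸ hk')
    · exact Or.inr (mem_iUnion.2 ⟨⟨k', h⟩, hk'⟩)
  refine IsPreconnected.subset_left_of_subset_union (hVo k)
    (isOpen_iUnion fun k' : {k' // k' ≠ k} => hVo k'.1) ?_ h1 ⟨x, hxi, hxk⟩ (hUc i).isPreconnected
  rw [Set.disjoint_iUnion_right]
  exact fun k' => hVd _ _ (Ne.symm k'.2)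

/-- Two open partitions of the same set into connected sets agree. -/
theorem equiv_of_partitions {ι κ : Type*} (U : ι → Set M) (V : κ → Set M)
    (hUo : ∀ i, IsOpen (U i)) (hVo : ∀ i, IsOpen (V i))
    (hUc : ∀ i, IsConnected (U i)) (hVc : ∀ i, IsConnected (V i))
    (hUd : ∀ i j, i ≠ j → Disjoint (U i) (U j)) (hVd : ∀ i j, i ≠ j → Disjoint (V i) (V j))
    (hcover : (⋃ i, U i) = ⋃ i, V i) : ∃ e : ι ≃ κ, ∀ i, U i = V (e i) := by
  have h1 : ∀ i, ∃ k, U i = V k := by
    intro i
    obtain ⟨x, hx⟩ := (hUc i).nonempty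
    have hx' : x ∈ ⋃ i, V i := hcover ▸ mem_iUnion.2 ⟨i, hx⟩
    obtain ⟨k, hk⟩ := mem_iUnion.1 hx'
    exact ⟨k, Subset.antisymm (partition_sub U V hVo hUc hVd hcover.subset i k x hx hk)
      (partition_sub V U hUo hVc hUd hcover.symm.subset k i x hk hx)⟩
  have h2 : ∀ k, ∃ i, V k = U i := by
    intro k
    obtain ⟨x, hx⟩ := (hVc k).nonempty
    have hx' : x ∈ ⋃ i, U i := hcover ▸ mem_iUnion.2 ⟨k, hx⟩
    obtain ⟨i, hi⟩ := mem_iUnion.1 hx'
    exact ⟨i, Subset.antisymm (partition_sub V U hUo hVc hUd hcover.symm.subset k i x hx hi)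
      (partition_sub U V hVo hUc hVd hcover.subset i k x hi hx)⟩
  choose f hf using h1
  choose f' hf' using h2
  have injU : ∀ i j, U i = U j → i = j := by
    intro i j hij
    by_contra hne
    obtain ⟨x, hx⟩ := (hUc i).nonempty
    exact Set.disjoint_left.1 (hUd i j hne) hx (hij ▸ hx)
  have injV : ∀ i j, V i = V j → i = j := by
    intro i j hij
    by_contra hne
    obtain ⟨x, hx⟩ := (hVc i).nonempty
    exact Set.disjoint_left.1 (hVd i j hne) hx (hij ▸ hx)
  exact ⟨⟨f, f', fun i => injU _ _ (by rw [← hf', ← hf]), fun k => injV _ _ (by rw [← hf, ← hf'])⟩,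
    hf⟩

/-- Separation of two points of a compact set lying in no common subcontinuum. -/
theorem component_sep [T2Space M] {X : Set M} (hX : IsCompact X) {x y : M} (hx : x ∈ X)
    (hy : y ∈ X) (hno : ¬ ∃ Q : Set M, IsCompact Q ∧ IsConnected Q ∧ Q ⊆ X ∧ x ∈ Q ∧ y ∈ Q) :
    ∃ C D : Set M, IsClosed C ∧ IsClosed D ∧ Disjoint C D ∧ C ∪ D = X ∧ x ∈ C ∧ y ∈ D := by
  have : CompactSpace X := isCompact_iff_compactSpace.1 hX
  let x0 : X := ⟨x, hx⟩
  let y0 : X := ⟨y, hy⟩
  have h1 : y0 ∉ connectedComponent x0 := by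
    intro h
    apply hno
    refine ⟨Subtype.val '' connectedComponent x0, ?_, ?_, ?_, ⟨x0, mem_connectedComponent, rfl⟩,
      ⟨y0, h, rfl⟩⟩
    · exact isClosed_connectedComponent.isCompact.image continuous_subtype_val
    · exact isConnected_connectedComponent.image _ continuous_subtype_val.continuousOn
    · rintro _ ⟨z, -, rfl⟩; exact z.2
  rw [connectedComponent_eq_iInter_isClopen] at h1
  simp only [mem_iInter, not_forall] at h1
  obtain ⟨⟨Z, hZ, hxZ⟩, hyZ⟩ := h1
  refine ⟨Subtype.val '' Z, Subtype.val '' Zᶜ,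
    (hZ.1.isCompact.image continuous_subtype_val).isClosed,
    (hZ.2.isClosed_compl.isCompact.image continuous_subtype_val).isClosed, ?_, ?_,
    ⟨x0, hxZ, rfl⟩, ⟨y0, hyZ, rfl⟩⟩
  · exact (Set.disjoint_image_iff Subtype.val_injective).2 disjoint_compl_right
  · rw [← image_union, union_compl_self, image_univ, Subtype.range_coe]

theorem all_or_none {C D Y : Set M} (hC : IsClosed C) (hD : IsClosed D) (hCD : Disjoint C D)
    (hY : IsPreconnected Y) (hsub : Y ⊆ C ∪ D) {x y : M} (hx : x ∈ Y) (hy : y ∈ Y)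
    (hxC : x ∈ C) : y ∈ C := by
  by_contra hyC
  have hyD : y ∈ D := (hsub hy).resolve_left hyC
  obtain ⟨z, -, hz1, hz2⟩ := isPreconnected_closed_iff.1 hY C D hC hD hsub ⟨x, hx, hxC⟩
    ⟨y, hy, hyD⟩
  exact Set.disjoint_left.1 hCD hz1 hz2

/-- the two rays of a parametrised line -/
def ray (θ : ℝ → M) (b : Bool) : Set M := θ '' (if b then Ioi 0 else Iio 0)

theorem isConnected_ray {θ : ℝ → M} (hθ : IsOpenEmbedding θ) (b : Bool) :
    IsConnected (ray θ b) := by
  unfold ray
  cases b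
  · exact (isConnected_Iio).image _ hθ.continuous.continuousOn
  · exact (isConnected_Ioi).image _ hθ.continuous.continuousOn

theorem isOpen_ray {θ : ℝ → M} (hθ : IsOpenEmbedding θ) (b : Bool) : IsOpen (ray θ b) := by
  unfold ray
  cases b
  · exact hθ.isOpenMap _ isOpen_Iio
  · exact hθ.isOpenMap _ isOpen_Ioi

theorem ray_subset_range {θ : ℝ → M} (b : Bool) : ray θ b ⊆ range θ := image_subset_range _ _

theorem zero_mem_closure_ray {θ : ℝ → M} (hθ : IsOpenEmbedding θ) (b : Bool) :
    θ 0 ∈ closure (ray θ b) := by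
  unfold ray
  apply image_closure_subset_closure_image hθ.continuous
  refine ⟨0, ?_, rfl⟩
  cases b
  · simp
  · simp

theorem ray_disjoint {θ : ℝ → M} (hθ : IsOpenEmbedding θ) : Disjoint (ray θ true) (ray θ false) := by
  rw [Set.disjoint_left]
  rintro _ ⟨s, hs, rfl⟩ ⟨t, ht, hst⟩
  have := hθ.injective hst
  simp only [if_true, Bool.false_eq_true, if_false, mem_Ioi, mem_Iio] at hs ht
  linarith

theorem mem_ray_of_ne {θ : ℝ → M} {x : M} (hx : x ∈ range θ) (hx0 : x ≠ θ 0) :
    ∃ b, x ∈ ray θ b := by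
  obtain ⟨t, rfl⟩ := hx
  rcases lt_trichotomy t 0 with h | h | h
  · exact ⟨false, t, h, rfl⟩
  · rw [h] at hx0; exact absurd rfl hx0
  · exact ⟨true, t, h, rfl⟩

end topology

section parity

variable {M : Type*} [TopologicalSpace M] [T2Space M] [CompactSpace M]

/-- The parity lemma: on a closed 1-manifold decomposed into edges in two ways, the two sides of
an arc can be joined outside of the arc. -/
theorem parity {I J : Type*} [Fintype I] [Fintype J] (F : Set M)
    (θ : I → ℝ → M) (ψ : J → ℝ → M) (hθ : ∀ i, IsOpenEmbedding (θ i))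
    (hψ : ∀ j, IsOpenEmbedding (ψ j))
    (hθF : ∀ i, θ i 0 ∈ F) (hψF : ∀ j, ψ j 0 ∈ F)
    (hθF' : ∀ i x, x ∈ F → x ∈ range (θ i) → x = θ i 0)
    (hψF' : ∀ j x, x ∈ F → x ∈ range (ψ j) → x = ψ j 0)
    (hθd : ∀ i j, i ≠ j → Disjoint (range (θ i)) (range (θ j)))
    (hψd : ∀ i j, i ≠ j → Disjoint (range (ψ i)) (range (ψ j)))
    (hθc : ∀ x, x ∉ F → ∃ i, x ∈ range (θ i)) (hψc : ∀ x, x ∉ F → ∃ j, x ∈ range (ψ j))
    (hne : ∀ i j, θ i 0 ≠ ψ j 0) (i0 : I) {s t : ℝ} (hs : s < 0) (ht : 0 < t) :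
    ∃ Q : Set M, IsCompact Q ∧ IsConnected Q ∧ Q ⊆ (θ i0 '' Ioo s t)ᶜ ∧ θ i0 s ∈ Q ∧
      θ i0 t ∈ Q := by
  classical
  by_contra hno
  have hX : IsCompact (θ i0 '' Ioo s t)ᶜ :=
    ((hθ i0).isOpenMap _ isOpen_Ioo).isClosed_compl.isCompact
  have hsX : θ i0 s ∈ (θ i0 '' Ioo s t)ᶜ := by
    rintro ⟨u, hu, hus⟩
    have := (hθ i0).injective hus
    rw [this] at hu; exact lt_irrefl _ hu.1
  have htX : θ i0 t ∈ (θ i0 '' Ioo s t)ᶜ := by
    rintro ⟨u, hu, hus⟩
    have := (hθ i0).injective hus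
    rw [this] at hu; exact lt_irrefl _ hu.2
  obtain ⟨C, D, hC, hD, hCD, hCDX, hsC, htD⟩ := component_sep hX hsX htX hno
  -- the matching of the edges
  have hrayF : ∀ i b x, x ∈ ray (θ i) b → x ∉ F := by
    rintro i b x hx hxF
    have h1 := hθF' i x hxF (ray_subset_range b hx)
    obtain ⟨u, hu, hux⟩ := hx
    rw [h1] at hux
    have := (hθ i).injective hux
    rw [this] at hu
    cases b <;> simp at hu
  have hrayF' : ∀ j b x, x ∈ ray (ψ j) b → x ∉ F := by
    rintro i b x hx hxF
    have h1 := hψF' i x hxF (ray_subset_range b hx)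
    obtain ⟨u, hu, hux⟩ := hx
    rw [h1] at hux
    have := (hψ i).injective hux
    rw [this] at hu
    cases b <;> simp at hu
  obtain ⟨e, he⟩ := equiv_of_partitions (fun p : I × Bool => ray (θ p.1) p.2)
    (fun p : J × Bool => ray (ψ p.1) p.2) (fun p => isOpen_ray (hθ _) _)
    (fun p => isOpen_ray (hψ _) _) (fun p => isConnected_ray (hθ _) _)
    (fun p => isConnected_ray (hψ _) _) (by
      rintro ⟨i, b⟩ ⟨i', b'⟩ hne'
      by_cases h : i = i'
      · subst h
        cases b <;> cases b' <;> simp only [ne_eq, not_true_eq_false] at hne' ⊢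
        · exact (ray_disjoint (hθ i)).symm
        · exact ray_disjoint (hθ i)
      · exact (hθd i i' h).mono (ray_subset_range _) (ray_subset_range _)) (by
      rintro ⟨i, b⟩ ⟨i', b'⟩ hne'
      by_cases h : i = i'
      · subst h
        cases b <;> cases b' <;> simp only [ne_eq, not_true_eq_false] at hne' ⊢
        · exact (ray_disjoint (hψ i)).symm
        · exact ray_disjoint (hψ i)
      · exact (hψd i i' h).mono (ray_subset_range _) (ray_subset_range _)) (by
      ext x
      simp only [mem_iUnion, Prod.exists]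
      constructor
      · rintro ⟨i, b, hx⟩
        have hxF := hrayF i b x hx
        obtain ⟨j, hj⟩ := hψc x hxF
        obtain ⟨b', hb'⟩ := mem_ray_of_ne hj (fun h => hxF (h ▸ hψF j))
        exact ⟨j, b', hb'⟩
      · rintro ⟨i, b, hx⟩
        have hxF := hrayF' i b x hx
        obtain ⟨j, hj⟩ := hθc x hxF
        obtain ⟨b', hb'⟩ := mem_ray_of_ne hj (fun h => hxF (h ▸ hθF j))
        exact ⟨j, b', hb'⟩)
  -- sinks are outside of the unstable lines
  have hψθ : ∀ i j, ψ j 0 ∉ range (θ i) := fun i j h =>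
    hne i j (hθF' i _ (hψF j) h).symm
  -- the predicate
  let N : M → Prop := fun x => x = θ i0 0 ∨ x ∈ C
  have hNψ : ∀ j, N (ψ j 0) ↔ ψ j 0 ∈ C := by
    intro j
    constructor
    · rintro (h | h)
      · exact absurd h.symm (hne i0 j)
      · exact h
    · exact Or.inr
  -- generic edges
  have hedge : ∀ i b, i ≠ i0 → (N (θ i 0) ↔ N (ψ (e (i, b)).1 0)) := by
    intro i b hi
    have hR := he (i, b)
    simp only at hR
    have hY : IsPreconnected (ray (θ i) b ∪ {θ i 0, ψ (e (i, b)).1 0}) := by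
      refine (isConnected_ray (hθ i) b).isPreconnected.subset_closure subset_union_left ?_
      rintro x (hx | rfl | rfl)
      · exact subset_closure hx
      · exact zero_mem_closure_ray (hθ i) b
      · rw [hR]; exact zero_mem_closure_ray (hψ _) _
    have hsub : ray (θ i) b ∪ {θ i 0, ψ (e (i, b)).1 0} ⊆ C ∪ D := by
      rw [hCDX]
      rintro x (hx | rfl | rfl) hx'
      · exact Set.disjoint_left.1 (hθd i i0 hi) (ray_subset_range _ hx) (image_subset_range _ _ hx')
      · exact Set.disjoint_left.1 (hθd i i0 hi) ⟨0, rfl⟩ (image_subset_range _ _ hx')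
      · exact hψθ i0 _ (image_subset_range _ _ hx')
    rw [hNψ]
    constructor
    · rintro (h | h)
      · exact (Set.disjoint_left.1 (hθd i i0 hi) ⟨0, rfl⟩ ⟨0, h.symm⟩).elim
      · exact all_or_none hC hD hCD hY hsub (Or.inr (Or.inl rfl)) (Or.inr (Or.inr rfl)) h
    · intro h
      exact Or.inr (all_or_none hC hD hCD hY hsub (Or.inr (Or.inr rfl)) (Or.inr (Or.inl rfl)) h)
  -- the far end of a truncated edge
  have hfar : ∀ (b : Bool) (A B : Set ℝ), (if b then Ioi (0 : ℝ) else Iio 0) ⊆ A ∪ B →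
      IsCompact B → ψ (e (i0, b)).1 0 ∈ closure (θ i0 '' A) := by
    intro b A B hAB hB
    have h1 : ψ (e (i0, b)).1 0 ∈ closure (ray (θ i0) b) := by
      have hR := he (i0, b)
      simp only at hR
      rw [hR]; exact zero_mem_closure_ray (hψ _) _
    have h2 : ray (θ i0) b ⊆ θ i0 '' A ∪ θ i0 '' B := by
      rw [← image_union]; exact image_mono hAB
    have h3 := closure_mono h2 h1
    rw [closure_union, (hB.image (hθ i0).continuous).isClosed.closure_eq] at h3
    exact h3.resolve_right (fun h => hψθ i0 _ (image_subset_range _ _ h))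
  have hmain : ∀ (b : Bool) (A B : Set ℝ), (if b then Ioi (0 : ℝ) else Iio 0) ⊆ A ∪ B →
      IsCompact B → IsConnected A → Disjoint A (Ioo s t) → ∀ (C' D' : Set M), IsClosed C' →
      IsClosed D' → Disjoint C' D' → C' ∪ D' = (θ i0 '' Ioo s t)ᶜ → ∀ a ∈ A, θ i0 a ∈ C' →
      ψ (e (i0, b)).1 0 ∈ C' := by
    intro b A B hAB hB hA hAst C' D' hC' hD' hCD' hCDX' a ha haC
    have hcl := hfar b A B hAB hB
    have hY : IsPreconnected (θ i0 '' A ∪ {ψ (e (i0, b)).1 0}) := by
      refine ((hA.image _ (hθ i0).continuous.continuousOn).isPreconnected).subset_closure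
        subset_union_left ?_
      rintro x (hx | rfl)
      · exact subset_closure hx
      · exact hcl
    refine all_or_none hC' hD' hCD' hY ?_ (Or.inl ⟨a, ha, rfl⟩) (Or.inr rfl) haC
    rw [hCDX']
    rintro x (⟨u, hu, rfl⟩ | rfl) hx'
    · obtain ⟨w, hw, hwu⟩ := hx'
      have := (hθ i0).injective hwu
      rw [this] at hw
      exact Set.disjoint_left.1 hAst hu hw
    · exact hψθ i0 _ (image_subset_range _ _ hx')
  have hleft : ψ (e (i0, false)).1 0 ∈ C := by
    refine hmain false (Iic s) (Icc s 0) ?_ isCompact_Icc isConnected_Iic ?_ C D hC hD hCD hCDX s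
      self_mem_Iic hsC
    · intro u hu
      simp only [Bool.false_eq_true, if_false, mem_Iio] at hu
      by_cases h : u ≤ s
      · exact Or.inl h
      · exact Or.inr ⟨by push Not at h; exact h.le, hu.le⟩
    · rw [Set.disjoint_left]
      intro u hu hu'
      exact absurd hu'.1 (not_lt.2 hu)
  have hright : ψ (e (i0, true)).1 0 ∈ D := by
    refine hmain true (Ici t) (Icc 0 t) ?_ isCompact_Icc isConnected_Ici ?_ D C hD hC hCD.symm
      (by rw [union_comm]; exact hCDX) t self_mem_Ici htD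
    · intro u hu
      simp only [if_true, mem_Ioi] at hu
      by_cases h : t ≤ u
      · exact Or.inl h
      · exact Or.inr ⟨hu.le, by push Not at h; exact h.le⟩
    · rw [Set.disjoint_left]
      intro u hu hu'
      exact absurd hu'.2 (not_lt.2 hu)
  -- the parity count
  let m : M → ZMod 2 := fun x => if N x then 1 else 0
  have hsumI : ∑ p : I × Bool, m (θ p.1 0) = 0 := by
    rw [Fintype.sum_prod_type]
    apply Finset.sum_eq_zero
    intro i _
    rw [Fintype.sum_bool]
    exact CharTwo.add_self_eq_zero _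
  have hsumJ : ∑ p : J × Bool, m (ψ p.1 0) = 0 := by
    rw [Fintype.sum_prod_type]
    apply Finset.sum_eq_zero
    intro i _
    rw [Fintype.sum_bool]
    exact CharTwo.add_self_eq_zero _
  have hsumJ' : ∑ p : I × Bool, m (ψ (e p).1 0) = 0 := by
    rw [← hsumJ]
    exact Equiv.sum_comp e (fun p => m (ψ p.1 0))
  have htot : ∑ p : I × Bool, (m (θ p.1 0) + m (ψ (e p).1 0)) = 0 := by
    rw [Finset.sum_add_distrib, hsumI, hsumJ', add_zero]
  have hone : ∑ p : I × Bool, (m (θ p.1 0) + m (ψ (e p).1 0)) = 1 := by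
    rw [Finset.sum_eq_single (i0, true)]
    · have h1 : N (θ i0 0) := Or.inl rfl
      have h2 : ¬ N (ψ (e (i0, true)).1 0) := by
        rw [hNψ]; exact fun h => Set.disjoint_left.1 hCD h hright
      simp only [m, if_pos h1, if_neg h2, add_zero]
    · rintro ⟨i, b⟩ - hp
      by_cases hi : i = i0
      · subst hi
        cases b
        · have h1 : N (θ i 0) := Or.inl rfl
          have h2 : N (ψ (e (i, false)).1 0) := (hNψ _).2 hleft
          simp only [m, if_pos h1, if_pos h2]
          exact CharTwo.add_self_eq_zero _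
        · exact absurd rfl hp
      · have h1 := hedge i b hi
        by_cases h2 : N (θ i 0)
        · simp only [m, if_pos h2, if_pos (h1.1 h2)]
          exact CharTwo.add_self_eq_zero _
        · simp only [m, if_neg h2, if_neg (fun h => h2 (h1.2 h)), add_zero]
    · intro h
      exact absurd (Finset.mem_univ _) h
  rw [htot] at hone
  exact zero_ne_one hone

end parity

end Pool.Agent.Helper82.MS
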