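import Pool.Agent.Helper82.MS.Src

set_option autoImplicit false
set_option linter.unusedSectionVars false
set_option maxHeartbeats 4000000

open Set Filter Topology Metric
open scoped NNReal

namespace Pool.Agent.Helper82.MS

section cone

variable {E : Type*} [NormedAddCommGroup E] [NormedSpace ℝ E] [FiniteDimensional ℝ E]

theorem cone_escape {G : E → E} {L : E ≃L[ℝ] E} {Es Eu : Submodule ℝ E} (hc : IsCompl Es Eu)
    (hs : ∀ x ∈ Es, L x ∈ Es ∧ 8 * ‖L x‖ ≤ ‖x‖) (hu : ∀ x ∈ Eu, L x ∈ Eu ∧ 8 * ‖x‖ ≤ ‖L x‖)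
    (hG : HasStrictFDerivAt G (L : E →L[ℝ] E) 0) {s : Set E} (hnb : s ∈ 𝓝 (0 : E)) :
    ∃ ρ : ℝ, 0 < ρ ∧ closedBall (0 : E) ρ ⊆ s ∧ ∀ a b : ℕ → E, (∀ n, ‖a n‖ ≤ ρ) →
      (∀ n, ‖b n‖ ≤ ρ) → (∀ n, a (n + 1) = G (a n)) → (∀ n, b (n + 1) = G (b n)) →
      b 0 - a 0 ∈ Eu → b 0 = a 0 := by
  let P : E →L[ℝ] E := LinearMap.toContinuousLinearMap (Eu.projection Es hc.symm)
  let Q : E →L[ℝ] E := LinearMap.toContinuousLinearMap (Es.projection Eu hc)
  have hP : ∀ x, P x ∈ Eu := fun x => Submodule.projection_apply_mem hc.symm x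
  have hQ : ∀ x, Q x ∈ Es := fun x => Submodule.projection_apply_mem hc x
  have hPQ : ∀ x, P x + Q x = x := fun x => Submodule.projection_add_projection_eq_self hc.symm x
  have hPu : ∀ x ∈ Eu, P x = x := fun x hx => Submodule.projection_apply_of_mem_left hc.symm hx
  have hQs : ∀ x ∈ Es, Q x = x := fun x hx => Submodule.projection_apply_of_mem_left hc hx
  have hPs : ∀ x ∈ Es, P x = 0 := fun x hx => by
    have := hPQ x
    rw [hQs x hx] at this
    simpa using this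
  have hQu : ∀ x ∈ Eu, Q x = 0 := fun x hx => by
    have := hPQ x
    rw [hPu x hx] at this
    simpa using this
  have hPL : ∀ x, P (L x) = L (P x) := by
    intro x
    conv_lhs => rw [← hPQ x, map_add, map_add, hPu _ (hu _ (hP x)).1, hPs _ (hs _ (hQ x)).1,
      add_zero]
  have hQL : ∀ x, Q (L x) = L (Q x) := by
    intro x
    conv_lhs => rw [← hPQ x, map_add, map_add, hQu _ (hu _ (hP x)).1, hQs _ (hs _ (hQ x)).1,
      zero_add]
  obtain ⟨η, hη, hηP, hηQ⟩ : ∃ η : ℝ, 0 < η ∧ ‖P‖ * (2 * η) ≤ 1 ∧ ‖Q‖ * (2 * η) ≤ 1 := by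
    refine ⟨1 / (2 * (‖P‖ + ‖Q‖ + 1)), by positivity, ?_, ?_⟩
    · have : ‖P‖ * (2 * (1 / (2 * (‖P‖ + ‖Q‖ + 1)))) = ‖P‖ / (‖P‖ + ‖Q‖ + 1) := by field_simp
      rw [this, div_le_one (by positivity)]
      linarith [norm_nonneg Q]
    · have : ‖Q‖ * (2 * (1 / (2 * (‖P‖ + ‖Q‖ + 1)))) = ‖Q‖ / (‖P‖ + ‖Q‖ + 1) := by field_simp
      rw [this, div_le_one (by positivity)]
      linarith [norm_nonneg P]
  obtain ⟨ρ, hρ, hρs, hρG⟩ := exists_ball_approx hG hη hnb
  refine ⟨ρ, hρ, hρs, fun a b ha hb hag hbg hab => ?_⟩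
  have key : ∀ n, ‖Q (b n - a n)‖ ≤ ‖P (b n - a n)‖ ∧
      7 ^ n * ‖P (b 0 - a 0)‖ ≤ ‖P (b n - a n)‖ := by
    intro n
    induction n with
    | zero =>
      refine ⟨?_, by simp⟩
      rw [hQu _ hab, norm_zero]
      exact norm_nonneg _
    | succ n ih =>
      obtain ⟨ih1, ih2⟩ := ih
      set w := b n - a n with hw
      have hwn : ‖w‖ ≤ 2 * ‖P w‖ := by
        calc ‖w‖ = ‖P w + Q w‖ := by rw [hPQ]
          _ ≤ _ := (norm_add_le _ _).trans (by linarith)
      obtain ⟨err, herr⟩ : ∃ err, err = G (b n) - G (a n) - L w := ⟨_, rfl⟩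
      have he : ‖err‖ ≤ 2 * η * ‖P w‖ := by
        have h1 := hρG (b n) (a n) (hb n) (ha n)
        rw [herr]
        calc _ ≤ η * ‖b n - a n‖ := h1
          _ ≤ η * (2 * ‖P w‖) := by gcongr
          _ = _ := by ring
      have hw' : b (n + 1) - a (n + 1) = L w + err := by
        rw [hbg, hag, herr]; abel
      have hPe : ‖P err‖ ≤ ‖P w‖ := by
        calc _ ≤ ‖P‖ * ‖err‖ := P.le_opNorm _
          _ ≤ ‖P‖ * (2 * η * ‖P w‖) := by gcongr
          _ = (‖P‖ * (2 * η)) * ‖P w‖ := by ring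
          _ ≤ 1 * ‖P w‖ := by gcongr
          _ = _ := one_mul _
      have hQe : ‖Q err‖ ≤ ‖P w‖ := by
        calc _ ≤ ‖Q‖ * ‖err‖ := Q.le_opNorm _
          _ ≤ ‖Q‖ * (2 * η * ‖P w‖) := by gcongr
          _ = (‖Q‖ * (2 * η)) * ‖P w‖ := by ring
          _ ≤ 1 * ‖P w‖ := by gcongr
          _ = _ := one_mul _
      have h8 := (hu _ (hP w)).2
      have h8' := (hs _ (hQ w)).2
      have e1 : P (b (n + 1) - a (n + 1)) = L (P w) + P err := by rw [hw', map_add, hPL]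
      have e2 : Q (b (n + 1) - a (n + 1)) = L (Q w) + Q err := by rw [hw', map_add, hQL]
      have h3 : ‖L (P w)‖ ≤ ‖P (b (n + 1) - a (n + 1))‖ + ‖P err‖ := by
        rw [e1]
        calc ‖L (P w)‖ = ‖(L (P w) + P err) - P err‖ := by congr 1; abel
          _ ≤ _ := norm_sub_le _ _
      have h4 : ‖Q (b (n + 1) - a (n + 1))‖ ≤ ‖L (Q w)‖ + ‖Q err‖ := by
        rw [e2]; exact norm_add_le _ _
      have h5 := norm_nonneg (P w)
      constructor
      · linarith
      · have : (7 : ℝ) ^ (n + 1) * ‖P (b 0 - a 0)‖ = 7 * (7 ^ n * ‖P (b 0 - a 0)‖) := by ring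
        rw [this]
        linarith
  have hP0 : ‖P (b 0 - a 0)‖ = 0 := by
    by_contra hne
    have hpos : 0 < ‖P (b 0 - a 0)‖ := lt_of_le_of_ne (norm_nonneg _) (Ne.symm hne)
    obtain ⟨n, hn⟩ := pow_unbounded_of_one_lt ((‖P‖ * (2 * ρ)) / ‖P (b 0 - a 0)‖)
      (by norm_num : (1 : ℝ) < 7)
    rw [div_lt_iff₀ hpos] at hn
    have h1 := (key n).2
    have h2 : ‖P (b n - a n)‖ ≤ ‖P‖ * (2 * ρ) := by
      refine (P.le_opNorm _).trans ?_
      have : ‖b n - a n‖ ≤ 2 * ρ := (norm_sub_le _ _).trans (by linarith [ha n, hb n])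
      gcongr
    linarith
  have h1 : b 0 - a 0 = 0 := by
    rw [← hPu _ hab]; exact norm_eq_zero.1 hP0
  exact sub_eq_zero.1 h1

end cone

section dyn

variable {M : Type*} [MetricSpace M] [CompactSpace M]
variable (E : Type*) [NormedAddCommGroup E] [NormedSpace ℝ E] [FiniteDimensional ℝ E]

/-- `p` is a fixed point of `g` which is hyperbolic in some chart. -/
def HypAt (g : M ≃ₜ M) (p : M) : Prop :=
  g p = p ∧ ∃ (e : OpenPartialHomeomorph M E) (L : E ≃L[ℝ] E) (Es Eu : Submodule ℝ E),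
    p ∈ e.source ∧ e p = 0 ∧
    HasStrictFDerivAt (fun x => e (g (e.symm x))) (L : E →L[ℝ] E) 0 ∧ IsCompl Es Eu ∧
    (∀ x ∈ Es, L x ∈ Es ∧ L.symm x ∈ Es ∧ 8 * ‖L x‖ ≤ ‖x‖) ∧
    (∀ x ∈ Eu, L x ∈ Eu ∧ L.symm x ∈ Eu ∧ 8 * ‖x‖ ≤ ‖L x‖)

/-- `p` is a source of `g`. -/
def IsSrc (g : M ≃ₜ M) (p : M) : Prop :=
  ∃ (Φ : E → M) (L : E ≃L[ℝ] E), SourceModel g Φ L ∧ Φ 0 = p

variable {E}

theorem strict_symm (g : M ≃ₜ M) {p : M} (hp : g p = p) (e : OpenPartialHomeomorph M E)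
    (hpe : p ∈ e.source) (he0 : e p = 0) (L : E ≃L[ℝ] E)
    (hG : HasStrictFDerivAt (fun x => e (g (e.symm x))) (L : E →L[ℝ] E) 0) :
    HasStrictFDerivAt (fun x => e (g.symm (e.symm x))) (L.symm : E →L[ℝ] E) 0 := by
  have hsymm0 : e.symm 0 = p := by rw [← he0, e.left_inv hpe]
  have h0t : (0 : E) ∈ e.target := by rw [← he0]; exact e.map_source hpe
  have hp' : g.symm p = p := by rw [Homeomorph.symm_apply_eq]; exact hp.symm
  have hc0 : ContinuousAt (fun x => g.symm (e.symm x)) 0 :=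
    g.symm.continuous.continuousAt.comp (e.symm.continuousAt (by simpa using h0t))
  have hval : g.symm (e.symm 0) = p := by rw [hsymm0, hp']
  have hc : ContinuousAt (fun x => e (g.symm (e.symm x))) 0 := by
    refine ContinuousAt.comp (g := e) (f := fun x => g.symm (e.symm x)) ?_ hc0
    rw [hval]
    exact e.continuousAt hpe
  refine HasStrictFDerivAt.of_local_left_inverse (f := fun x => e (g (e.symm x))) hc ?_ ?_
  · rw [hval, he0]; exact hG
  · have h1 : ∀ᶠ y in 𝓝 (0 : E), g.symm (e.symm y) ∈ e.source := by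
      apply hc0.eventually_mem
      rw [hval]
      exact e.open_source.mem_nhds hpe
    filter_upwards [h1, e.open_target.mem_nhds h0t] with y hy hyt
    rw [e.left_inv hy, g.apply_symm_apply, e.right_inv hyt]

theorem HypAt.symm {g : M ≃ₜ M} {p : M} (h : HypAt E g p) : HypAt E g.symm p := by
  obtain ⟨hp, e, L, Es, Eu, hpe, he0, hG, hc, hs, hu⟩ := h
  refine ⟨by rw [Homeomorph.symm_apply_eq]; exact hp.symm, e, L.symm, Eu, Es, hpe, he0,
    strict_symm g hp e hpe he0 L hG, hc.symm, ?_, ?_⟩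
  · intro x hx
    refine ⟨(hu x hx).2.1, by rw [ContinuousLinearEquiv.symm_symm]; exact (hu x hx).1, ?_⟩
    have := (hu _ (hu x hx).2.1).2.2
    rwa [L.apply_symm_apply] at this
  · intro x hx
    refine ⟨(hs x hx).2.1, by rw [ContinuousLinearEquiv.symm_symm]; exact (hs x hx).1, ?_⟩
    have := (hs _ (hs x hx).2.1).2.2
    rwa [L.apply_symm_apply] at this

/-- A hyperbolic fixed point is a sink, or its local stable set is nowhere dense. -/
theorem HypAt.dichotomy {g : M ≃ₜ M} {p : M} (h : HypAt E g p) :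
    IsSrc E g.symm p ∨ ∃ V ∈ 𝓝 p, IsClosed V ∧ interior {x | ∀ n : ℕ, g^[n] x ∈ V} = ∅ := by
  obtain ⟨hp, e, L, Es, Eu, hpe, he0, hG, hc, hs, hu⟩ := h
  by_cases hbot : Eu = ⊥
  · left
    have hEs : Es = ⊤ := by
      have := hc.sup_eq_top
      rwa [hbot, sup_bot_eq] at this
    have hG' := strict_symm g hp e hpe he0 L hG
    obtain ⟨Φ, hΦ, hΦ0⟩ := exists_sourceModel g.symm p
      (by rw [Homeomorph.symm_apply_eq]; exact hp.symm) e hpe he0 L.symm hG' (fun x => by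
        have := (hs (L.symm x) (by rw [hEs]; trivial)).2.2
        rwa [L.apply_symm_apply] at this)
    exact ⟨Φ, L.symm, hΦ, hΦ0⟩
  · right
    obtain ⟨u, hu1, hu0⟩ := (Submodule.ne_bot_iff _).1 hbot
    have hsymm0 : e.symm 0 = p := by rw [← he0, e.left_inv hpe]
    have h0t : (0 : E) ∈ e.target := by rw [← he0]; exact e.map_source hpe
    obtain ⟨ρ, hρ, hρt, hesc⟩ := cone_escape hc (fun x hx => ⟨(hs x hx).1, (hs x hx).2.2⟩)
      (fun x hx => ⟨(hu x hx).1, (hu x hx).2.2⟩) hG (e.open_target.mem_nhds h0t)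
    have hcomp : IsCompact (e.symm '' closedBall (0 : E) ρ) :=
      (isCompact_closedBall _ _).image_of_continuousOn (e.symm.continuousOn.mono (by simpa using hρt))
    refine ⟨e.symm '' closedBall (0 : E) ρ, ?_, hcomp.isClosed, ?_⟩
    · have h1 : map e.symm (𝓝 (0 : E)) = 𝓝 (e.symm 0) := e.symm.map_nhds_eq (by simpa using h0t)
      rw [hsymm0] at h1
      rw [← h1]
      exact image_mem_map (closedBall_mem_nhds _ hρ)
    · rw [Set.eq_empty_iff_forall_notMem]
      intro x hx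
      have hV : ∀ y ∈ e.symm '' closedBall (0 : E) ρ, ‖e y‖ ≤ ρ ∧ e.symm (e y) = y := by
        rintro _ ⟨a, ha, rfl⟩
        rw [e.right_inv (hρt ha)]
        exact ⟨by simpa using ha, rfl⟩
      have hxW : ∀ n : ℕ, g^[n] x ∈ e.symm '' closedBall (0 : E) ρ := interior_subset hx
      have hx0 := hxW 0
      simp only [Function.iterate_zero, id] at hx0
      have hxt : e x ∈ e.target := hρt (by simpa using (hV x hx0).1)
      have hcont : ContinuousAt (fun t : ℝ => e.symm (e x + t • u)) 0 := by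
        refine ContinuousAt.comp (g := e.symm) (f := fun t : ℝ => e x + t • u) ?_ ?_
        · rw [zero_smul, add_zero]
          exact e.symm.continuousAt (by simpa using hxt)
        · exact (continuous_const.add (continuous_id.smul continuous_const)).continuousAt
      have hcont2 : ContinuousAt (fun t : ℝ => e x + t • u) 0 :=
        (continuous_const.add (continuous_id.smul continuous_const)).continuousAt
      have hev1 : ∀ᶠ t in 𝓝 (0 : ℝ), e.symm (e x + t • u) ∈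
          interior {x | ∀ n : ℕ, g^[n] x ∈ e.symm '' closedBall (0 : E) ρ} := by
        apply hcont.eventually_mem
        simp only [zero_smul, add_zero, (hV x hx0).2]
        exact isOpen_interior.mem_nhds hx
      have hev2 : ∀ᶠ t in 𝓝 (0 : ℝ), e x + t • u ∈ e.target := by
        apply hcont2.eventually_mem
        simp only [zero_smul, add_zero]
        exact e.open_target.mem_nhds hxt
      obtain ⟨t, ⟨ht1, ht2⟩, ht0⟩ : ∃ t : ℝ, (e.symm (e x + t • u) ∈
          interior {x | ∀ n : ℕ, g^[n] x ∈ e.symm '' closedBall (0 : E) ρ} ∧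
          e x + t • u ∈ e.target) ∧ t ≠ 0 := by
        have h1 : ∀ᶠ t in 𝓝[≠] (0 : ℝ), (e.symm (e x + t • u) ∈
          interior {x | ∀ n : ℕ, g^[n] x ∈ e.symm '' closedBall (0 : E) ρ} ∧
          e x + t • u ∈ e.target) := (hev1.and hev2).filter_mono nhdsWithin_le_nhds
        obtain ⟨t, ht, ht'⟩ := (h1.and self_mem_nhdsWithin).exists
        exact ⟨t, ht, ht'⟩
      have hyW : ∀ n : ℕ, g^[n] (e.symm (e x + t • u)) ∈ e.symm '' closedBall (0 : E) ρ :=
        interior_subset ht1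
      have hrec : ∀ z : M, (∀ n : ℕ, g^[n] z ∈ e.symm '' closedBall (0 : E) ρ) →
          ∀ n : ℕ, e (g^[n + 1] z) = e (g (e.symm (e (g^[n] z)))) := by
        intro z hz n
        rw [(hV _ (hz n)).2, Function.iterate_succ_apply']
      have := hesc (fun n => e (g^[n] x)) (fun n => e (g^[n] (e.symm (e x + t • u))))
        (fun n => (hV _ (hxW n)).1) (fun n => (hV _ (hyW n)).1) (hrec x hxW) (hrec _ hyW)
        (by
          simp only [Function.iterate_zero, id]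
          rw [e.right_inv ht2, add_sub_cancel_left]
          exact Eu.smul_mem t hu1)
      simp only [Function.iterate_zero, id] at this
      rw [e.right_inv ht2] at this
      have h3 : t • u = 0 := by simpa using this
      rcases smul_eq_zero.1 h3 with h4 | h4
      · exact ht0 h4
      · exact hu0 h4

theorem isOpenMap_iterate {X : Type*} [TopologicalSpace X] (g : X ≃ₜ X) (n : ℕ) :
    IsOpenMap g^[n] := by
  apply IsOpenMap.of_nhds_le
  intro x
  rw [map_iterate_nhds]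

/-- Baire: the points converging to a `P`-point are dense. -/
theorem dense_of_dichotomy (g : M ≃ₜ M) (F : Set M) (hF : F.Finite) (P : M → Prop)
    (hconv : ∀ x, ∃ p ∈ F, Tendsto (fun n : ℕ => g^[n] x) atTop (𝓝 p))
    (hdich : ∀ p ∈ F, P p ∨ ∃ V ∈ 𝓝 p, IsClosed V ∧ interior {x | ∀ n : ℕ, g^[n] x ∈ V} = ∅) :
    Dense {x | ∃ p ∈ F, P p ∧ Tendsto (fun n : ℕ => g^[n] x) atTop (𝓝 p)} := by
  classical
  have h1 : ∀ p : M, ∃ V : Set M, IsClosed V ∧ (p ∈ F → ¬ P p →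
      V ∈ 𝓝 p ∧ interior {x | ∀ n : ℕ, g^[n] x ∈ V} = ∅) ∧
      (¬ (p ∈ F ∧ ¬ P p) → V = ∅) := by
    intro p
    by_cases hp : p ∈ F ∧ ¬ P p
    · rcases hdich p hp.1 with h | ⟨V, hV1, hV2, hV3⟩
      · exact absurd h hp.2
      · exact ⟨V, hV2, fun _ _ => ⟨hV1, hV3⟩, fun h => absurd hp h⟩
    · exact ⟨∅, isClosed_empty, fun h h' => absurd ⟨h, h'⟩ hp, fun _ => rfl⟩
  choose V hVc hV hV0 using h1
  have hWc : ∀ p, IsClosed {x | ∀ n : ℕ, g^[n] x ∈ V p} := by
    intro p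
    have : {x | ∀ n : ℕ, g^[n] x ∈ V p} = ⋂ n : ℕ, g^[n] ⁻¹' V p := by ext x; simp
    rw [this]
    exact isClosed_iInter fun n => (hVc p).preimage (g.continuous.iterate n)
  have hmeagre : ∀ p ∈ F, IsMeagre (⋃ n : ℕ, g^[n] ⁻¹' {x | ∀ n : ℕ, g^[n] x ∈ V p}) := by
    intro p hp
    apply isMeagre_iUnion
    intro n
    apply IsNowhereDense.isMeagre
    have hcl : IsClosed (g^[n] ⁻¹' {x | ∀ n : ℕ, g^[n] x ∈ V p}) :=
      (hWc p).preimage (g.continuous.iterate n)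
    rw [IsNowhereDense, hcl.closure_eq,
      ← (isOpenMap_iterate g n).preimage_interior_eq_interior_preimage (g.continuous.iterate n)]
    by_cases hPp : P p
    · have h2 : V p = ∅ := hV0 p (fun h => h.2 hPp)
      have h3 : {x | ∀ n : ℕ, g^[n] x ∈ V p} = ∅ := by
        rw [h2]; ext x; simp
      rw [h3, interior_empty, preimage_empty]
    · rw [(hV p hp hPp).2, preimage_empty]
  have hall : IsMeagre (⋃ p ∈ F, ⋃ n : ℕ, g^[n] ⁻¹' {x | ∀ n : ℕ, g^[n] x ∈ V p}) :=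
    isMeagre_biUnion hF.countable hmeagre
  have hdense : Dense (⋃ p ∈ F, ⋃ n : ℕ, g^[n] ⁻¹' {x | ∀ n : ℕ, g^[n] x ∈ V p})ᶜ :=
    dense_of_mem_residual hall
  refine hdense.mono ?_
  intro x hx
  obtain ⟨p, hp, hlim⟩ := hconv x
  refine ⟨p, hp, ?_, hlim⟩
  by_contra hPp
  apply hx
  obtain ⟨hnb, -⟩ := hV p hp hPp
  obtain ⟨N, hN⟩ := Filter.eventually_atTop.1 (hlim.eventually_mem hnb)
  refine mem_iUnion₂.2 ⟨p, hp, mem_iUnion.2 ⟨N, ?_⟩⟩
  intro n
  rw [← Function.iterate_add_apply]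
  exact hN _ (by omega)

/-- Convergence of all orbits. -/
theorem tendsto_of_cluster (g : M ≃ₜ M) (F : Set M) (hF : F.Finite) (hfix : ∀ p ∈ F, g p = p)
    (hcl : ∀ x y, MapClusterPt y atTop (fun n : ℕ => g^[n] x) → y ∈ F) (x : M) :
    ∃ p ∈ F, Tendsto (fun n : ℕ => g^[n] x) atTop (𝓝 p) := by
  obtain ⟨p, -, hp⟩ := isCompact_univ.exists_mapClusterPt (f := atTop)
    (u := fun n : ℕ => g^[n] x) (by simp)
  have hpF := hcl x p hp
  refine ⟨p, hpF, ?_⟩
  -- separation constant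
  obtain ⟨η, hη, hsep⟩ : ∃ η : ℝ, 0 < η ∧ ∀ q ∈ F, dist q p < 2 * η → q = p := by
    have h1 : ∀ᶠ z in 𝓝 p, z ∉ F \ {p} :=
      (hF.subset sdiff_subset).isClosed.isOpen_compl.mem_nhds (by simp)
    obtain ⟨ε, hε, h2⟩ := Metric.eventually_nhds_iff.1 h1
    refine ⟨ε / 2, by linarith, fun q hq hqp => ?_⟩
    by_contra hne
    exact h2 (y := q) (by linarith) ⟨hq, hne⟩
  rw [Metric.tendsto_atTop]
  intro ε hε
  obtain ⟨ε1, hε1def⟩ : ∃ ε1 : ℝ, ε1 = min ε η := ⟨_, rfl⟩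
  have hε1 : 0 < ε1 := by rw [hε1def]; exact lt_min hε hη
  -- continuity at p
  obtain ⟨ε2, hε2, hcont⟩ := Metric.continuousAt_iff.1 (g.continuous.continuousAt (x := p)) ε1 hε1
  rw [hfix p hpF] at hcont
  obtain ⟨ε3, hε3def⟩ : ∃ ε3 : ℝ, ε3 = min ε1 ε2 := ⟨_, rfl⟩
  have hε3 : 0 < ε3 := by rw [hε3def]; exact lt_min hε1 hε2
  -- eventually in the union of balls
  have hev : ∀ᶠ n in atTop, g^[n] x ∈ ⋃ q ∈ F, ball q ε3 := by
    by_contra hcon
    rw [Filter.not_eventually] at hcon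
    have hcl' : IsClosed (⋃ q ∈ F, ball q ε3)ᶜ :=
      (isOpen_biUnion fun q _ => isOpen_ball).isClosed_compl
    obtain ⟨a, ha, ha'⟩ := hcl'.isCompact.exists_mapClusterPt_of_frequently hcon
    have haF := hcl x a ha'
    exact ha (mem_iUnion₂.2 ⟨a, haF, mem_ball_self hε3⟩)
  obtain ⟨N, hN⟩ := Filter.eventually_atTop.1 hev
  obtain ⟨n1, hn1, hn1'⟩ : ∃ n1, N ≤ n1 ∧ dist (g^[n1] x) p < ε3 := by
    have h1 := (mapClusterPt_iff_frequently.1 hp) (ball p ε3) (ball_mem_nhds p hε3)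
    obtain ⟨n, hn, hn'⟩ := (Filter.frequently_atTop.1 h1) N
    exact ⟨n, hn, hn'⟩
  have hstay : ∀ n, n1 ≤ n → dist (g^[n] x) p < ε3 := by
    intro n hn
    induction n, hn using Nat.le_induction with
    | base => exact hn1'
    | succ n hn ih =>
      have h1 : dist (g^[n + 1] x) p < ε1 := by
        rw [Function.iterate_succ_apply']
        exact hcont (lt_of_lt_of_le ih (by rw [hε3def]; exact min_le_right _ _))
      obtain ⟨q, hq, hq'⟩ := mem_iUnion₂.1 (hN (n + 1) (by omega))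
      rw [mem_ball] at hq'
      have h2 : q = p := by
        apply hsep q hq
        have h3 := dist_triangle_left q p (g^[n + 1] x)
        have h4 : ε3 ≤ ε1 := by rw [hε3def]; exact min_le_left _ _
        have h5 : ε1 ≤ η := by rw [hε1def]; exact min_le_right _ _
        linarith
      rwa [h2] at hq'
  refine ⟨n1, fun n hn => lt_of_lt_of_le (hstay n hn) ?_⟩
  rw [hε3def]
  exact (min_le_left _ _).trans (by rw [hε1def]; exact min_le_left _ _)

end dyn

end Pool.Agent.Helper82.MS
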