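import Pool.Agent.Helper82.MS.Glue

set_option autoImplicit false
set_option maxHeartbeats 4000000

open TopologicalSpace Set Filter Topology Metric
open scoped NNReal Manifold ContDiff

namespace Pool.Agent.Helper82.MS

theorem nonwandering_of_cluster {M : Type*} [TopologicalSpace M] (f : M → M) {x y : M}
    (h : MapClusterPt y atTop (fun n : ℕ => f^[n] x)) : IsNonwandering f y := by
  intro U hU
  have h1 := (mapClusterPt_iff_frequently.1 h) U hU
  obtain ⟨a, -, ha⟩ := (Filter.frequently_atTop.1 h1) 0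
  obtain ⟨b, hb, hb'⟩ := (Filter.frequently_atTop.1 h1) (a + 1)
  refine ⟨b - a, by omega, f^[b] x, ⟨f^[a] x, ha, ?_⟩, hb'⟩
  rw [← Function.iterate_add_apply]
  congr 2
  omega

theorem nonwandering_symm {M : Type*} [TopologicalSpace M] (f f' : M → M)
    (hff' : Function.LeftInverse f f') {y : M} (h : IsNonwandering f' y) : IsNonwandering f y := by
  intro U hU
  obtain ⟨n, hn, z, ⟨w, hw, hwz⟩, hz⟩ := h U hU
  refine ⟨n, hn, w, ⟨z, hz, ?_⟩, hw⟩
  rw [← hwz]
  exact hff'.iterate n w

theorem final_aux {n : WithTop ℕ∞} (hn : 1 ≤ n) {d : ℕ} (hd : 1 ≤ d) {M : Type*} [MetricSpace M]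
    [CompactSpace M] [Nonempty M] [ChartedSpace (EuclideanSpace ℝ (Fin d)) M]
    [IsManifold (𝓡 d) n M] (f : M ≃ₘ^n⟮𝓡 d, 𝓡 d⟯ M)
    (hfin : {x | IsNonwandering f x}.Finite)
    (hhyp : ∀ p, IsNonwandering f p → IsHyperbolicPeriodicPoint d f p) :
    ¬ HasShadowing (inducedMap f f.continuous) := by
  classical
  intro hsh
  -- a common power
  have h1 : ∀ p : M, ∃ k N : ℕ, 0 < k ∧ (p ∈ {x | IsNonwandering f x} → ∀ m : ℕ, N ≤ m →
      ∀ g : M ≃ₜ M, (⇑g = f^[k * m]) → HypAt (EuclideanSpace ℝ (Fin d)) g p) := by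
    intro p
    by_cases hp : IsNonwandering f p
    · obtain ⟨k, N, hk, h⟩ := hypAt_of_periodic hn f (hhyp p hp)
      exact ⟨k, N, hk, fun _ => h⟩
    · exact ⟨1, 0, one_pos, fun h => absurd h hp⟩
  choose k N hk hkN using h1
  obtain ⟨K, hK0, hK⟩ : ∃ K : ℕ, 0 < K ∧ ∀ p ∈ hfin.toFinset, ∃ m, N p ≤ m ∧ K = k p * m := by
    refine ⟨(∏ p ∈ hfin.toFinset, k p) * (∑ p ∈ hfin.toFinset, N p + 1),
      Nat.mul_pos (Finset.prod_pos fun p _ => hk p) (Nat.succ_pos _), fun p hp => ?_⟩
    refine ⟨(∏ q ∈ hfin.toFinset.erase p, k q) * (∑ p ∈ hfin.toFinset, N p + 1), ?_, ?_⟩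
    · have h2 : N p ≤ ∑ p ∈ hfin.toFinset, N p := Finset.single_le_sum (fun _ _ => Nat.zero_le _) hp
      have h3 : 0 < ∏ q ∈ hfin.toFinset.erase p, k q := Finset.prod_pos fun q _ => hk q
      nlinarith
    · rw [← Finset.mul_prod_erase _ _ hp, mul_assoc]
  let g : M ≃ₜ M :=
    { toFun := f^[K]
      invFun := f.symm^[K]
      left_inv := Function.LeftInverse.iterate f.symm_apply_apply K
      right_inv := Function.LeftInverse.iterate f.apply_symm_apply K
      continuous_toFun := f.continuous.iterate K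
      continuous_invFun := f.symm.continuous.iterate K }
  have hg : ⇑g = f^[K] := rfl
  have hgs : ⇑g.symm = f.symm^[K] := rfl
  have hKlim : Tendsto (fun n : ℕ => K * n) atTop atTop :=
    tendsto_id.const_mul_atTop' hK0
  refine no_shadowing_of_hyp (E := EuclideanSpace ℝ (Fin d)) g {x | IsNonwandering f x} hfin
    ?_ ?_ ?_ ?_ ?_
  · intro x y h
    apply nonwandering_of_cluster f
    have h2 : (fun n : ℕ => g^[n] x) = (fun n : ℕ => f^[n] x) ∘ (fun n : ℕ => K * n) := by
      funext n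
      simp only [Function.comp_apply, hg, Function.iterate_mul]
    rw [h2] at h
    exact MapClusterPt.of_comp hKlim h
  · intro x y h
    apply nonwandering_symm f f.symm f.apply_symm_apply
    apply nonwandering_of_cluster f.symm
    have h2 : (fun n : ℕ => g.symm^[n] x) =
        (fun n : ℕ => f.symm^[n] x) ∘ (fun n : ℕ => K * n) := by
      funext n
      simp only [Function.comp_apply, hgs, Function.iterate_mul]
    rw [h2] at h
    exact MapClusterPt.of_comp hKlim h
  · intro p hp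
    obtain ⟨m, hm, hKm⟩ := hK p (hfin.mem_toFinset.2 hp)
    exact hkN p hp m hm g (by rw [hg, hKm])
  · rw [finrank_euclideanSpace_fin]; exact hd
  · have h2 := hsh.iterate hK0
    rw [inducedMap_iterate] at h2
    exact h2

end Pool.Agent.Helper82.MS
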