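import Pool.Agent.Helper82.MS.Abs

set_option autoImplicit false
set_option linter.unusedSectionVars false
set_option maxHeartbeats 4000000

open Set Filter Topology Metric
open scoped NNReal Manifold ContDiff

namespace Pool.Agent.Helper82.MS

section linalg

variable {E : Type*} [NormedAddCommGroup E] [NormedSpace ℝ E] [FiniteDimensional ℝ E]

theorem symm_mem_of_mem {L : E ≃L[ℝ] E} {S : Submodule ℝ E} (hS : ∀ x ∈ S, L x ∈ S) :
    ∀ x ∈ S, L.symm x ∈ S := by
  have h1 : S.map (L.toLinearEquiv : E →ₗ[ℝ] E) ≤ S := by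
    rintro _ ⟨x, hx, rfl⟩
    exact hS x hx
  have h2 : S.map (L.toLinearEquiv : E →ₗ[ℝ] E) = S :=
    Submodule.eq_of_le_of_finrank_eq h1 (LinearEquiv.finrank_map_eq L.toLinearEquiv S)
  intro x hx
  rw [← h2] at hx
  obtain ⟨y, hy, rfl⟩ := hx
  have h3 : L.symm (L y) = y := L.symm_apply_apply y
  change L.symm (L y) ∈ S
  rw [h3]
  exact hy

theorem pow_mem_of_mem {A : E →L[ℝ] E} {S : Submodule ℝ E} (hS : ∀ x ∈ S, A x ∈ S) (m : ℕ) :
    ∀ x ∈ S, (A ^ m) x ∈ S := by
  induction m with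
  | zero => intro x hx; simpa using hx
  | succ m ih =>
    intro x hx
    rw [pow_succ]
    exact ih _ (hS x hx)

theorem pow_apply_eq (A : E →L[ℝ] E) (m : ℕ) (x : E) : (A ^ m) x = A^[m] x := by
  induction m generalizing x with
  | zero => rfl
  | succ m ih => rw [pow_succ, Function.iterate_succ_apply, ← ih]; rfl

/-- large powers of a hyperbolic linear map -/
theorem hyperbolic_pow {A : E →L[ℝ] E} (hA : IsHyperbolicLinear A) :
    ∃ Es Eu : Submodule ℝ E, IsCompl Es Eu ∧ (∀ v ∈ Es, A v ∈ Es) ∧ (∀ v ∈ Eu, A v ∈ Eu) ∧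
      ∃ N : ℕ, ∀ m : ℕ, N ≤ m → (∀ x ∈ Es, 8 * ‖(A ^ m) x‖ ≤ ‖x‖) ∧
        (∀ x ∈ Eu, 8 * ‖x‖ ≤ ‖(A ^ m) x‖) := by
  obtain ⟨Es, Eu, hc, hs, hu, C, lam, hl0, hl1, hC1, hC2⟩ := hA
  refine ⟨Es, Eu, hc, hs, hu, ?_⟩
  have hlim : Tendsto (fun m : ℕ => C * lam ^ m) atTop (𝓝 0) := by
    have := (tendsto_pow_atTop_nhds_zero_of_lt_one hl0.le hl1).const_mul C
    rwa [mul_zero] at this
  obtain ⟨N, hN⟩ := Filter.eventually_atTop.1
    (hlim.eventually (gt_mem_nhds (by norm_num : (0 : ℝ) < 1 / 8)))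
  refine ⟨N, fun m hm => ⟨fun x hx => ?_, fun x hx => ?_⟩⟩
  · have h1 := hC1 x hx m
    rw [← pow_apply_eq] at h1
    have h2 := hN m hm
    have h3 := norm_nonneg x
    have h4 : C * lam ^ m * ‖x‖ ≤ 1 / 8 * ‖x‖ := by gcongr
    linarith
  · have h1 := hC2 x hx m
    rw [← pow_apply_eq] at h1
    have h2 := hN m hm
    have h3 := norm_nonneg ((A ^ m) x)
    have h4 : C * lam ^ m * ‖(A ^ m) x‖ ≤ 1 / 8 * ‖(A ^ m) x‖ := by gcongr
    linarith

end linalg

section chart

variable {d : ℕ} {M : Type*} [TopologicalSpace M] [ChartedSpace (EuclideanSpace ℝ (Fin d)) M]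

theorem strict_of_contMDiffAt {n : WithTop ℕ∞} (hn : 1 ≤ n) {φ : M → M} {p : M}
    (hφ : ContMDiffAt (𝓡 d) (𝓡 d) n φ p) (hp : φ p = p)
    (A : EuclideanSpace ℝ (Fin d) →L[ℝ] EuclideanSpace ℝ (Fin d))
    (hA : A = mfderiv (𝓡 d) (𝓡 d) φ p) :
    HasStrictFDerivAt (fun x => chartAt (EuclideanSpace ℝ (Fin d)) p
      (φ ((chartAt (EuclideanSpace ℝ (Fin d)) p).symm x))) A
      (chartAt (EuclideanSpace ℝ (Fin d)) p p) := by
  have hn0 : n ≠ 0 := by intro h0; rw [h0] at hn; simp at hn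
  have h1 := (contMDiffAt_iff.1 hφ).2
  have hmd : MDifferentiableAt (𝓡 d) (𝓡 d) φ p := hφ.mdifferentiableAt hn0
  have h2 := hmd.mfderiv
  rw [writtenInExtChartAt] at h2
  rw [hp] at h1 h2
  simp only [mfld_simps] at h1 h2
  rw [contDiffWithinAt_univ] at h1
  rw [fderivWithin_univ] at h2
  have h3 := h1.hasStrictFDerivAt hn0
  have h4 : A = fderiv ℝ (fun x => chartAt (EuclideanSpace ℝ (Fin d)) p
      (φ ((chartAt (EuclideanSpace ℝ (Fin d)) p).symm x)))
      (chartAt (EuclideanSpace ℝ (Fin d)) p p) := by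
    rw [hA]; exact h2
  rw [h4]
  exact h3

end chart

section iter

variable {M : Type*} [TopologicalSpace M]
variable {E : Type*} [NormedAddCommGroup E] [NormedSpace ℝ E]

/-- iterates read in a chart -/
theorem chart_iterate (e : OpenPartialHomeomorph M E) {h : M → M} (hc : Continuous h) {p : M}
    (hpe : p ∈ e.source) (hp : h p = p) (m : ℕ) :
    (fun x => e (h^[m] (e.symm x))) =ᶠ[𝓝 (e p)] (fun x => e (h (e.symm x)))^[m] := by
  have hpt : e p ∈ e.target := e.map_source hpe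
  induction m with
  | zero =>
    filter_upwards [e.open_target.mem_nhds hpt] with x hx
    simpa using e.right_inv hx
  | succ m ih =>
    have hc1 : ContinuousAt (fun x => h^[m] (e.symm x)) (e p) :=
      (hc.iterate m).continuousAt.comp (e.symm.continuousAt (by simpa using hpt))
    have h1 : ∀ᶠ x in 𝓝 (e p), h^[m] (e.symm x) ∈ e.source := by
      apply hc1.eventually_mem
      rw [e.left_inv hpe, Function.iterate_fixed hp]
      exact e.open_source.mem_nhds hpe
    filter_upwards [ih, h1] with x hx hx1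
    rw [Function.iterate_succ_apply' h, Function.iterate_succ_apply', ← hx, e.left_inv hx1]

/-- translate a chart so that it maps the point to the origin -/
theorem translate_chart [FiniteDimensional ℝ E] (e : OpenPartialHomeomorph M E) {g : M → M} {p : M}
    (hpe : p ∈ e.source) {B : E →L[ℝ] E}
    (hB : HasStrictFDerivAt (fun x => e (g (e.symm x))) B (e p)) :
    ∃ e' : OpenPartialHomeomorph M E, p ∈ e'.source ∧ e' p = 0 ∧
      (∀ φ : M → M, ∀ x, e' (φ (e'.symm x)) = e (φ (e.symm (x + e p))) - e p) ∧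
      HasStrictFDerivAt (fun x => e' (g (e'.symm x))) B 0 := by
  let e' : OpenPartialHomeomorph M E := e.transHomeomorph (Homeomorph.subRight (e p))
  have h1 : ∀ φ : M → M, ∀ x, e' (φ (e'.symm x)) = e (φ (e.symm (x + e p))) - e p :=
    fun φ x => rfl
  refine ⟨e', hpe, ?_, h1, ?_⟩
  · change e p - e p = 0
    exact sub_self _
  · have h2 : HasStrictFDerivAt (fun x : E => x + e p) (ContinuousLinearMap.id ℝ E) 0 :=
      (hasStrictFDerivAt_id 0).add_const _
    have h3 : HasStrictFDerivAt (fun x => e (g (e.symm x))) B ((fun x : E => x + e p) 0) := by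
      simpa using hB
    have h4 := (h3.comp 0 h2).sub_const (e p)
    rw [ContinuousLinearMap.comp_id] at h4
    exact h4

end iter

section main

variable {d : ℕ} {M : Type*} [MetricSpace M] [CompactSpace M]
  [ChartedSpace (EuclideanSpace ℝ (Fin d)) M]

/-- Hyperbolicity of a power in a chart. -/
theorem hypAt_of_periodic {n : WithTop ℕ∞} (hn : 1 ≤ n) [IsManifold (𝓡 d) n M]
    (f : M ≃ₘ^n⟮𝓡 d, 𝓡 d⟯ M) {p : M} (h : IsHyperbolicPeriodicPoint d f p) :
    ∃ k N : ℕ, 0 < k ∧ ∀ m : ℕ, N ≤ m → ∀ g : M ≃ₜ M, (⇑g = f^[k * m]) →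
      HypAt (EuclideanSpace ℝ (Fin d)) g p := by
  obtain ⟨k, hk, hkp, hA⟩ := h
  obtain ⟨A, hAdef⟩ : ∃ A : EuclideanSpace ℝ (Fin d) →L[ℝ] EuclideanSpace ℝ (Fin d),
    A = mfderiv (𝓡 d) (𝓡 d) f^[k] p := ⟨_, rfl⟩
  have hA' : IsHyperbolicLinear A := by rw [hAdef]; exact hA
  obtain ⟨Es, Eu, hc, hs, hu, N, hN⟩ := hyperbolic_pow hA'
  refine ⟨k, N, hk, fun m hm g hg => ?_⟩
  have hn0 : n ≠ 0 := by intro h0; rw [h0] at hn; simp at hn
  set e0 := chartAt (EuclideanSpace ℝ (Fin d)) p with he0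
  have hpe : p ∈ e0.source := mem_chart_source _ p
  have hfk : ContMDiff (𝓡 d) (𝓡 d) n (f^[k]) := by
    have : ∀ j : ℕ, ContMDiff (𝓡 d) (𝓡 d) n (f^[j]) := by
      intro j
      induction j with
      | zero => exact contMDiff_id
      | succ j ih => rw [Function.iterate_succ]; exact ih.comp f.contMDiff
    exact this k
  have hgk : ⇑g = (f^[k])^[m] := by rw [hg, Function.iterate_mul]
  have h1 : HasStrictFDerivAt (fun x => e0 (f^[k] (e0.symm x))) A (e0 p) :=
    strict_of_contMDiffAt hn hfk.contMDiffAt hkp A hAdef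
  have hfix : (fun x => e0 (f^[k] (e0.symm x))) (e0 p) = e0 p := by
    simp only [e0.left_inv hpe, hkp]
  have h2 := h1.iterate hfix m
  have hgp : g p = p := by rw [hgk]; exact Function.iterate_fixed hkp m
  have h3 : HasStrictFDerivAt (fun x => e0 (g (e0.symm x))) (A ^ m) (e0 p) := by
    rw [hgk]
    exact h2.congr_of_eventuallyEq
      (chart_iterate e0 (hfk.continuous) hpe hkp m).symm
  -- the inverse
  have hginv : ⇑g.symm = (f.symm)^[k * m] := by
    funext x
    rw [Homeomorph.symm_apply_eq, hg]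
    exact ((Function.LeftInverse.iterate f.apply_symm_apply (k * m)) x).symm
  have hgs : ContMDiff (𝓡 d) (𝓡 d) n g.symm := by
    rw [hginv]
    have : ∀ j : ℕ, ContMDiff (𝓡 d) (𝓡 d) n (f.symm^[j]) := by
      intro j
      induction j with
      | zero => exact contMDiff_id
      | succ j ih => rw [Function.iterate_succ]; exact ih.comp f.symm.contMDiff
    exact this _
  have hgsp : g.symm p = p := by rw [Homeomorph.symm_apply_eq]; exact hgp.symm
  have h4 : HasStrictFDerivAt (fun x => e0 (g.symm (e0.symm x)))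
      (show EuclideanSpace ℝ (Fin d) →L[ℝ] EuclideanSpace ℝ (Fin d) from
        mfderiv (𝓡 d) (𝓡 d) g.symm p) (e0 p) :=
    strict_of_contMDiffAt hn hgs.contMDiffAt hgsp _ rfl
  obtain ⟨B', hB'⟩ : ∃ B' : EuclideanSpace ℝ (Fin d) →L[ℝ] EuclideanSpace ℝ (Fin d),
    HasStrictFDerivAt (fun x => e0 (g.symm (e0.symm x))) B' (e0 p) := ⟨_, h4⟩
  have hcomp : B'.comp (A ^ m) = ContinuousLinearMap.id ℝ _ := by
    have h5 : HasFDerivAt (fun x => e0 (g.symm (e0.symm x))) B' (e0 (g (e0.symm (e0 p)))) := by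
      rw [e0.left_inv hpe, hgp]; exact hB'.hasFDerivAt
    have h6 := h5.comp (e0 p) h3.hasFDerivAt
    have h7 : HasFDerivAt (fun x : EuclideanSpace ℝ (Fin d) => x)
        (ContinuousLinearMap.id ℝ _) (e0 p) := hasFDerivAt_id _
    refine h6.unique (h7.congr_of_eventuallyEq ?_)
    have hcg : ContinuousAt (fun x => g (e0.symm x)) (e0 p) :=
      g.continuous.continuousAt.comp (e0.symm.continuousAt (by simpa using e0.map_source hpe))
    have hev : ∀ᶠ x in 𝓝 (e0 p), g (e0.symm x) ∈ e0.source := by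
      apply hcg.eventually_mem
      rw [e0.left_inv hpe, hgp]
      exact e0.open_source.mem_nhds hpe
    filter_upwards [hev, e0.open_target.mem_nhds (e0.map_source hpe)] with x hx hxt
    simp only [Function.comp_apply]
    rw [e0.left_inv hx, g.symm_apply_apply, e0.right_inv hxt]
  have hinj : Function.Injective (A ^ m) := by
    intro x y hxy
    have hx := DFunLike.congr_fun hcomp x
    have hy := DFunLike.congr_fun hcomp y
    simp only [ContinuousLinearMap.comp_apply, ContinuousLinearMap.id_apply] at hx hy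
    rw [← hx, ← hy, hxy]
  let L : EuclideanSpace ℝ (Fin d) ≃L[ℝ] EuclideanSpace ℝ (Fin d) :=
    (LinearEquiv.ofInjectiveEndo ((A ^ m : EuclideanSpace ℝ (Fin d) →L[ℝ]
      EuclideanSpace ℝ (Fin d)) : EuclideanSpace ℝ (Fin d) →ₗ[ℝ] EuclideanSpace ℝ (Fin d))
      hinj).toContinuousLinearEquiv
  have hL : ∀ x, L x = (A ^ m) x := fun x => rfl
  have hL' : (L : EuclideanSpace ℝ (Fin d) →L[ℝ] EuclideanSpace ℝ (Fin d)) = A ^ m := by
    ext1 x; exact hL x
  obtain ⟨e, hpe', hep, -, hG⟩ := translate_chart e0 (g := g) hpe h3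
  rw [← hL'] at hG
  have hLs : ∀ x ∈ Es, L x ∈ Es := fun x hx => pow_mem_of_mem hs m x hx
  have hLu : ∀ x ∈ Eu, L x ∈ Eu := fun x hx => pow_mem_of_mem hu m x hx
  exact ⟨hgp, e, L, Es, Eu, hpe', hep, hG, hc,
    fun x hx => ⟨hLs x hx, symm_mem_of_mem hLs x hx, (hN m hm).1 x hx⟩,
    fun x hx => ⟨hLu x hx, symm_mem_of_mem hLu x hx, (hN m hm).2 x hx⟩⟩

end main

end Pool.Agent.Helper82.MS
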