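import Pool.Agent.Helper82.MS.Defs

set_option autoImplicit false
set_option linter.unusedSectionVars false

open TopologicalSpace Set Filter Topology Metric

namespace Pool.Agent.Helper82.MS

section general

/-- Shadowing passes to iterates. -/
theorem HasShadowing.iterate {Y : Type*} [PseudoMetricSpace Y] {T : Y → Y} (h : HasShadowing T)
    {k : ℕ} (hk : 0 < k) : HasShadowing T^[k] := by
  intro ε hε
  obtain ⟨δ, hδ, H⟩ := h ε hε
  refine ⟨δ, hδ, fun y hy => ?_⟩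
  obtain ⟨z, hz⟩ := H (fun n => T^[n % k] (y (n / k))) (by
    intro n
    have hlt : n % k < k := Nat.mod_lt n hk
    have hn : n = k * (n / k) + n % k := (Nat.div_add_mod n k).symm
    have e1 : (n + 1) / k = n / k + (n % k + 1) / k := by
      conv_lhs => rw [hn, Nat.add_assoc, Nat.mul_add_div hk]
    have e2 : (n + 1) % k = (n % k + 1) % k := by
      conv_lhs => rw [hn, Nat.add_assoc, Nat.mul_add_mod]
    by_cases hc : n % k + 1 < k
    · have h1 : (n + 1) % k = n % k + 1 := by rw [e2, Nat.mod_eq_of_lt hc]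
      have h2 : (n + 1) / k = n / k := by rw [e1, Nat.div_eq_of_lt hc, Nat.add_zero]
      rw [h1, h2, Function.iterate_succ_apply', dist_self]
      exact hδ
    · have h3 : n % k + 1 = k := by omega
      have h1 : (n + 1) % k = 0 := by rw [e2, h3, Nat.mod_self]
      have h2 : (n + 1) / k = n / k + 1 := by rw [e1, h3, Nat.div_self hk]
      rw [h1, h2, ← Function.iterate_succ_apply' T (n % k), Nat.succ_eq_add_one, h3]
      exact hy _)
  refine ⟨z, fun n => ?_⟩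
  have := hz (n * k)
  simp only [Nat.mul_mod_left, Nat.mul_div_cancel _ hk, Function.iterate_zero, id] at this
  rw [← Function.iterate_mul, Nat.mul_comm]
  exact this

variable {M : Type*} [MetricSpace M] [CompactSpace M]

theorem inducedMap_coe (g : M → M) (hg : Continuous g) (K : Subcontinua M) :
    (((inducedMap g hg K).1 : NonemptyCompacts M) : Set M) = g '' (K.1 : Set M) :=
  NonemptyCompacts.coe_map hg K.1

theorem inducedMap_iterate_coe (g : M → M) (hg : Continuous g) (n : ℕ) (K : Subcontinua M) :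
    ((((inducedMap g hg)^[n] K).1 : NonemptyCompacts M) : Set M) = g^[n] '' (K.1 : Set M) := by
  induction n generalizing K with
  | zero => simp
  | succ n ih =>
    rw [Function.iterate_succ_apply, ih, inducedMap_coe, Function.iterate_succ, Set.image_comp]

theorem inducedMap_iterate (g : M → M) (hg : Continuous g) (n : ℕ) :
    (inducedMap g hg)^[n] = inducedMap g^[n] (hg.iterate n) := by
  funext K
  apply Subtype.ext
  apply NonemptyCompacts.ext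
  rw [inducedMap_iterate_coe, inducedMap_coe]

theorem exists_of_dist_lt {K K' : Subcontinua M} {ε : ℝ} (h : dist K K' < ε) {x : M}
    (hx : x ∈ (K.1 : Set M)) : ∃ y ∈ (K'.1 : Set M), dist x y < ε := by
  have h' : hausdorffDist (K.1 : Set M) (K'.1 : Set M) < ε := h
  exact exists_dist_lt_of_hausdorffDist_lt hx h'
    (hausdorffEDist_ne_top_of_nonempty_of_bounded K.1.nonempty K'.1.nonempty
      K.1.isCompact.isBounded K'.1.isCompact.isBounded)

theorem dist_le_of_mem {K K' : Subcontinua M} {r : ℝ} (hr : 0 ≤ r)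
    (h1 : ∀ x ∈ (K.1 : Set M), ∃ y ∈ (K'.1 : Set M), dist x y ≤ r)
    (h2 : ∀ x ∈ (K'.1 : Set M), ∃ y ∈ (K.1 : Set M), dist x y ≤ r) : dist K K' ≤ r := by
  have : hausdorffDist (K.1 : Set M) (K'.1 : Set M) ≤ r := hausdorffDist_le_of_mem_dist hr h1 h2
  exact this

end general

section key

variable {M : Type*} [MetricSpace M] [CompactSpace M]
variable {E : Type*} [NormedAddCommGroup E] [NormedSpace ℝ E] [FiniteDimensional ℝ E]

/-- uniform openness of an open embedding on balls -/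
theorem unif_open {Φ : E → M} (hΦ : IsOpenEmbedding Φ) (R : ℝ) {ε' : ℝ} (hε' : 0 < ε') :
    ∃ ε : ℝ, 0 < ε ∧ ∀ x : E, ‖x‖ ≤ R → ∀ z : M, dist (Φ x) z < ε →
      ∃ y : E, Φ y = z ∧ ‖y - x‖ < ε' := by
  let e := hΦ.toOpenPartialHomeomorph Φ
  have hK : IsCompact (Φ '' closedBall (0 : E) R) :=
    (isCompact_closedBall (0 : E) R).image hΦ.continuous
  have hsub : Φ '' closedBall (0 : E) R ⊆ range Φ := image_subset_range _ _
  obtain ⟨ε1, hε1, h1⟩ := hK.exists_thickening_subset_open hΦ.isOpen_range hsub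
  have hcont : ∀ x ∈ Φ '' closedBall (0 : E) R, ContinuousAt e.symm x := by
    rintro _ ⟨x, -, rfl⟩
    apply e.symm.continuousAt
    simp [e]
  have hu := hK.uniformContinuousAt_of_continuousAt e.symm hcont (Metric.dist_mem_uniformity hε')
  obtain ⟨ε2, hε2, h2⟩ := Metric.mem_uniformity_dist.1 hu
  refine ⟨min ε1 ε2, lt_min hε1 hε2, fun x hx z hz => ?_⟩
  have hxK : Φ x ∈ Φ '' closedBall (0 : E) R := ⟨x, by simpa using hx, rfl⟩
  have hzr : z ∈ range Φ := by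
    apply h1
    rw [mem_thickening_iff]
    exact ⟨Φ x, hxK, by rw [dist_comm]; exact lt_of_lt_of_le hz (min_le_left _ _)⟩
  obtain ⟨y, rfl⟩ := hzr
  refine ⟨y, rfl, ?_⟩
  have h3 := h2 (lt_of_lt_of_le hz (min_le_right _ _)) hxK
  have ey : e.symm (Φ y) = y := e.left_inv (by simp [e])
  have ex : e.symm (Φ x) = x := e.left_inv (by simp [e])
  simp only [Set.mem_ofPred_eq, ex, ey] at h3
  rw [dist_comm, dist_eq_norm] at h3
  exact h3

/-- A global linear model of a homeomorphism `g` near a source `Φ 0`. -/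
structure SourceModel (g : M ≃ₜ M) (Φ : E → M) (L : E ≃L[ℝ] E) : Prop where
  emb : IsOpenEmbedding Φ
  exp : ∀ x, 8 * ‖x‖ ≤ ‖L x‖
  conj : ∀ x, g (Φ x) = Φ (L x)

namespace SourceModel

variable {g : M ≃ₜ M} {Φ : E → M} {L : E ≃L[ℝ] E}

theorem push (h : SourceModel g Φ L) (j : ℕ) (x : E) :
    g^[j] (Φ x) = Φ (((L : E →L[ℝ] E) ^ j) x) := by
  induction j generalizing x with
  | zero => simp
  | succ j ih =>
    rw [Function.iterate_succ_apply, h.conj, ih, pow_succ]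
    rfl

theorem pull (h : SourceModel g Φ L) (j : ℕ) (w : M) (y : E) (hw : g^[j] w = Φ y) :
    ∃ x, w = Φ x ∧ ((L : E →L[ℝ] E) ^ j) x = y := by
  induction j generalizing w with
  | zero => exact ⟨y, by simpa using hw, by simp⟩
  | succ j ih =>
    rw [Function.iterate_succ_apply] at hw
    obtain ⟨x', hx', hy⟩ := ih _ hw
    refine ⟨L.symm x', ?_, ?_⟩
    · apply g.injective
      rw [h.conj, L.apply_symm_apply, hx']
    · rw [pow_succ]
      change ((L : E →L[ℝ] E) ^ j) (L (L.symm x')) = y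
      rw [L.apply_symm_apply, hy]

theorem norm_ge (h : SourceModel g Φ L) (j : ℕ) (x : E) :
    8 ^ j * ‖x‖ ≤ ‖((L : E →L[ℝ] E) ^ j) x‖ := by
  induction j generalizing x with
  | zero => simp
  | succ j ih =>
    have h1 := ih (L x)
    have h2 := h.exp x
    have h3 : ((L : E →L[ℝ] E) ^ (j + 1)) x = ((L : E →L[ℝ] E) ^ j) (L x) := by
      rw [pow_succ]; rfl
    rw [h3]
    calc 8 ^ (j + 1) * ‖x‖ = 8 ^ j * (8 * ‖x‖) := by ring
      _ ≤ 8 ^ j * ‖L x‖ := by gcongr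
      _ ≤ _ := h1

theorem norm_le (j : ℕ) (x : E) :
    ‖((L : E →L[ℝ] E) ^ j) x‖ ≤ ‖(L : E →L[ℝ] E)‖ ^ j * ‖x‖ := by
  induction j generalizing x with
  | zero => simp
  | succ j ih =>
    have h1 := ih (L x)
    have h2 : ‖L x‖ ≤ ‖(L : E →L[ℝ] E)‖ * ‖x‖ := (L : E →L[ℝ] E).le_opNorm x
    have h3 : ((L : E →L[ℝ] E) ^ (j + 1)) x = ((L : E →L[ℝ] E) ^ j) (L x) := by
      rw [pow_succ]; rfl
    rw [h3]
    calc _ ≤ ‖(L : E →L[ℝ] E)‖ ^ j * ‖L x‖ := h1
      _ ≤ ‖(L : E →L[ℝ] E)‖ ^ j * (‖(L : E →L[ℝ] E)‖ * ‖x‖) := by gcongr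
      _ = _ := by ring

theorem norm_mono (h : SourceModel g Φ L) (j : ℕ) (x : E) :
    ‖x‖ ≤ ‖((L : E →L[ℝ] E) ^ j) x‖ := by
  have h1 := h.norm_ge j x
  have h2 : (1 : ℝ) ≤ 8 ^ j := one_le_pow₀ (by norm_num)
  nlinarith [norm_nonneg x]

/-- The points which pass the fundamental annulus at time `j` close to the ray of `L^j w`. -/
def S (L : E ≃L[ℝ] E) (ρ ε' : ℝ) (w : E) (j : ℕ) : Set E :=
  {x | ρ / 4 < ‖((L : E →L[ℝ] E) ^ j) x‖ ∧
    ‖((L : E →L[ℝ] E) ^ j) x‖ < 2 * ‖(L : E →L[ℝ] E)‖ * ρ ∧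
    ∃ t : ℝ, 0 < t ∧
      ‖((L : E →L[ℝ] E) ^ j) x - t • ((L : E →L[ℝ] E) ^ j) w‖ < ε'}

theorem isOpen_S (ρ ε' : ℝ) (w : E) (j : ℕ) : IsOpen (S L ρ ε' w j) := by
  have hc : Continuous fun x => ((L : E →L[ℝ] E) ^ j) x := ((L : E →L[ℝ] E) ^ j).continuous
  have : S L ρ ε' w j = {x | ρ / 4 < ‖((L : E →L[ℝ] E) ^ j) x‖} ∩
      ({x | ‖((L : E →L[ℝ] E) ^ j) x‖ < 2 * ‖(L : E →L[ℝ] E)‖ * ρ} ∩
      ⋃ t : {t : ℝ // 0 < t},
        {x | ‖((L : E →L[ℝ] E) ^ j) x - t.1 • ((L : E →L[ℝ] E) ^ j) w‖ < ε'}) := by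
    ext x
    simp [S]
  rw [this]
  refine (isOpen_lt continuous_const hc.norm).inter
    ((isOpen_lt hc.norm continuous_const).inter (isOpen_iUnion fun t => ?_))
  exact isOpen_lt (hc.sub continuous_const).norm continuous_const

theorem S_disjoint (h : SourceModel g Φ L) {ρ ε' : ℝ} (hρ : 0 < ρ) (hε' : 0 < ε')
    (hΛ : 8 ≤ ‖(L : E →L[ℝ] E)‖) {J : ℕ} (hJ : 8 * ‖(L : E →L[ℝ] E)‖ ≤ 8 ^ J)
    (hJε : (1 + 2 * ‖(L : E →L[ℝ] E)‖ ^ J) * ε' ≤ ρ / 4) {w x : E} {i k : ℕ}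
    (h1 : x ∈ S L ρ ε' w i) (h2 : x ∈ S L ρ ε' (-w) (i + k)) : False := by
  set A : E →L[ℝ] E := (L : E →L[ℝ] E) with hA
  obtain ⟨a1, -, t, ht, a3⟩ := h1
  obtain ⟨b1, b2, s, hs, b3⟩ := h2
  rw [← hA] at *
  have hsplit : ∀ z : E, (A ^ (i + k)) z = (A ^ k) ((A ^ i) z) := by
    intro z; rw [add_comm, pow_add]; rfl
  rw [hsplit] at b1 b2
  rw [hsplit, hsplit, map_neg, map_neg] at b3
  have hk8 : (8 : ℝ) ^ k * ‖(A ^ i) x‖ ≤ ‖(A ^ k) ((A ^ i) x)‖ := h.norm_ge k _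
  have hk : k ≤ J := by
    by_contra hcon
    push Not at hcon
    have : (8 : ℝ) ^ J ≤ 8 ^ k := pow_le_pow_right₀ (by norm_num) hcon.le
    have : 8 * ‖A‖ * (ρ / 4) ≤ 8 ^ k * ‖(A ^ i) x‖ := by
      apply mul_le_mul (le_trans hJ this) a1.le (by positivity) (by positivity)
    linarith
  have hΛk : ‖A‖ ^ k ≤ ‖A‖ ^ J := pow_le_pow_right₀ (by linarith) hk
  -- the error
  set y : E := (A ^ i) x with hy
  set u : E := (A ^ i) w with hu
  have he : ‖(A ^ k) (y - t • u)‖ ≤ ‖A‖ ^ J * ε' := by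
    calc _ ≤ ‖A‖ ^ k * ‖y - t • u‖ := norm_le k _
      _ ≤ ‖A‖ ^ J * ε' := by gcongr
  rw [map_sub, map_smul] at he
  -- (t+s) A^k u = [A^k y - s (-A^k u)] - [A^k y - t A^k u]
  have h3 : ‖(t + s) • (A ^ k) u‖ ≤ ε' + ‖A‖ ^ J * ε' := by
    have : (t + s) • (A ^ k) u =
        ((A ^ k) y - s • (-(A ^ k) u)) - ((A ^ k) y - t • (A ^ k) u) := by
      rw [add_smul, smul_neg]; abel
    rw [this]
    exact (norm_sub_le _ _).trans (add_le_add b3.le he)
  have h4 : ‖t • (A ^ k) u‖ ≤ ‖(t + s) • (A ^ k) u‖ := by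
    rw [norm_smul, norm_smul, Real.norm_of_nonneg ht.le, Real.norm_of_nonneg (by linarith)]
    have := norm_nonneg ((A ^ k) u)
    nlinarith
  have h5 : ‖(A ^ k) y‖ ≤ ‖t • (A ^ k) u‖ + ‖A‖ ^ J * ε' := by
    calc ‖(A ^ k) y‖ = ‖t • (A ^ k) u + ((A ^ k) y - t • (A ^ k) u)‖ := by congr 1; abel
      _ ≤ _ := (norm_add_le _ _).trans (by linarith)
  have : ‖(A ^ k) y‖ ≤ (1 + 2 * ‖A‖ ^ J) * ε' := by linarith
  linarith

theorem S_disjoint' (h : SourceModel g Φ L) {ρ ε' : ℝ} (hρ : 0 < ρ) (hε' : 0 < ε')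
    (hΛ : 8 ≤ ‖(L : E →L[ℝ] E)‖) {J : ℕ} (hJ : 8 * ‖(L : E →L[ℝ] E)‖ ≤ 8 ^ J)
    (hJε : (1 + 2 * ‖(L : E →L[ℝ] E)‖ ^ J) * ε' ≤ ρ / 4) {w x : E} {i j : ℕ}
    (h1 : x ∈ S L ρ ε' w i) (h2 : x ∈ S L ρ ε' (-w) j) : False := by
  rcases le_total i j with hij | hij
  · obtain ⟨k, rfl⟩ := Nat.exists_eq_add_of_le hij
    exact h.S_disjoint hρ hε' hΛ hJ hJε h1 h2
  · obtain ⟨k, rfl⟩ := Nat.exists_eq_add_of_le hij
    have h1' : x ∈ S L ρ ε' (-(-w)) (j + k) := by rwa [neg_neg]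
    exact h.S_disjoint hρ hε' hΛ hJ hJε h2 h1'

end SourceModel

end key

end Pool.Agent.Helper82.MS
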