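import Mathlib

set_option autoImplicit false
set_option linter.unusedSectionVars false
set_option maxHeartbeats 4000000

open Set Filter Topology Metric

namespace Pool.Agent.Helper82.MS

section retr

variable {E : Type*} [NormedAddCommGroup E] [NormedSpace ℝ E]

/-- radial retraction onto the closed ball of radius `ρ` -/
noncomputable def retr (ρ : ℝ) (x : E) : E :=
  open Classical in if ‖x‖ ≤ ρ then x else (ρ / ‖x‖) • x

theorem retr_eq {ρ : ℝ} {x : E} (h : ‖x‖ ≤ ρ) : retr ρ x = x := if_pos h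

theorem norm_retr_le {ρ : ℝ} (hρ : 0 ≤ ρ) (x : E) : ‖retr ρ x‖ ≤ ρ := by
  unfold retr
  split_ifs with h
  · exact h
  · push Not at h
    have hx : 0 < ‖x‖ := lt_of_le_of_lt hρ h
    rw [norm_smul, Real.norm_of_nonneg (by positivity), div_mul_cancel₀ _ hx.ne']

theorem retr_lip_aux {ρ : ℝ} (hρ : 0 ≤ ρ) {x y : E} (hx : ρ < ‖x‖) (hy : ‖y‖ ≤ ρ) :
    ‖(ρ / ‖x‖) • x - y‖ ≤ 2 * ‖x - y‖ := by
  have hx0 : 0 < ‖x‖ := lt_of_le_of_lt hρ hx
  have h1 : ‖(ρ / ‖x‖) • x - x‖ = ‖x‖ - ρ := by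
    have : (ρ / ‖x‖) • x - x = (-((‖x‖ - ρ) / ‖x‖)) • x := by
      rw [neg_smul, sub_div, div_self hx0.ne', sub_smul, one_smul]; abel
    rw [this, norm_smul, norm_neg, Real.norm_of_nonneg (div_nonneg (by linarith) hx0.le),
      div_mul_cancel₀ _ hx0.ne']
  have h2 : ‖x‖ - ‖y‖ ≤ ‖x - y‖ := norm_sub_norm_le x y
  calc ‖(ρ / ‖x‖) • x - y‖ = ‖((ρ / ‖x‖) • x - x) + (x - y)‖ := by congr 1; abel
    _ ≤ ‖(ρ / ‖x‖) • x - x‖ + ‖x - y‖ := norm_add_le _ _
    _ ≤ 2 * ‖x - y‖ := by rw [h1]; linarith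

theorem retr_lip {ρ : ℝ} (hρ : 0 ≤ ρ) (x y : E) : ‖retr ρ x - retr ρ y‖ ≤ 2 * ‖x - y‖ := by
  unfold retr
  split_ifs with h1 h2 h2
  · have := norm_nonneg (x - y); linarith
  · push Not at h2
    rw [norm_sub_rev, norm_sub_rev x y]
    exact retr_lip_aux hρ h2 h1
  · push Not at h1
    exact retr_lip_aux hρ h1 h2
  · push Not at h1 h2
    have hx0 : 0 < ‖x‖ := lt_of_le_of_lt hρ h1
    have hy0 : 0 < ‖y‖ := lt_of_le_of_lt hρ h2
    have e1 : (ρ / ‖x‖) • x - (ρ / ‖y‖) • y = (ρ / ‖x‖) • (x - y) + (ρ / ‖x‖ - ρ / ‖y‖) • y := by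
      rw [smul_sub, sub_smul]; abel
    have e2 : ‖(ρ / ‖x‖) • (x - y)‖ ≤ ‖x - y‖ := by
      rw [norm_smul, Real.norm_of_nonneg (by positivity)]
      have : ρ / ‖x‖ ≤ 1 := by rw [div_le_one hx0]; exact h1.le
      nlinarith [norm_nonneg (x - y)]
    have e3 : ‖(ρ / ‖x‖ - ρ / ‖y‖) • y‖ ≤ ‖x - y‖ := by
      have : ρ / ‖x‖ - ρ / ‖y‖ = ρ * (‖y‖ - ‖x‖) / (‖x‖ * ‖y‖) := by field_simp
      rw [this, norm_smul, norm_div, norm_mul, Real.norm_of_nonneg hρ,
        Real.norm_of_nonneg (by positivity : 0 ≤ ‖x‖ * ‖y‖), Real.norm_eq_abs]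
      have h3 : |‖y‖ - ‖x‖| ≤ ‖x - y‖ := by rw [norm_sub_rev]; exact abs_norm_sub_norm_le y x
      have h4 : ρ * |‖y‖ - ‖x‖| / (‖x‖ * ‖y‖) * ‖y‖ = (ρ / ‖x‖) * |‖y‖ - ‖x‖| := by field_simp
      rw [h4]
      have : ρ / ‖x‖ ≤ 1 := by rw [div_le_one hx0]; exact h1.le
      calc (ρ / ‖x‖) * |‖y‖ - ‖x‖| ≤ 1 * |‖y‖ - ‖x‖| := by gcongr
        _ ≤ _ := by rw [one_mul]; exact h3
    rw [e1]
    calc _ ≤ _ := norm_add_le _ _
      _ ≤ _ := by linarith

end retr

section lin

variable {E : Type*} [NormedAddCommGroup E] [NormedSpace ℝ E] [CompleteSpace E]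

open BoundedContinuousFunction

theorem norm_symm_le {L : E ≃L[ℝ] E} (hL : ∀ x, 8 * ‖x‖ ≤ ‖L x‖) (z : E) :
    ‖L.symm z‖ ≤ ‖z‖ / 8 := by
  have := hL (L.symm z)
  rw [L.apply_symm_apply] at this
  linarith

/-- Global linearisation of a Lipschitz-small bounded perturbation of an expanding linear map. -/
theorem linearize (L : E ≃L[ℝ] E) (hL : ∀ x, 8 * ‖x‖ ≤ ‖L x‖) (ψ : E → E)
    {C : ℝ} (hb : ∀ x, ‖ψ x‖ ≤ C) (hlip : ∀ x y, ‖ψ x - ψ y‖ ≤ ‖x - y‖) (hψ0 : ψ 0 = 0) :
    ∃ φ : E ≃ₜ E, φ 0 = 0 ∧ ∀ x, L (φ x) + ψ (φ x) = φ (L x) := by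
  have hC : 0 ≤ C := (norm_nonneg _).trans (hb 0)
  have hψc : Continuous ψ := by
    have : LipschitzWith 1 ψ := LipschitzWith.of_dist_le_mul fun x y => by
      rw [dist_eq_norm, dist_eq_norm, NNReal.coe_one, one_mul]; exact hlip x y
    exact this.continuous
  -- first fixed point
  let T1 : (E →ᵇ E) → (E →ᵇ E) := fun w =>
    BoundedContinuousFunction.ofNormedAddCommGroup
      (fun x => L.symm (w (L x) - ψ (x + w x)))
      (L.symm.continuous.comp ((w.continuous.comp L.continuous).sub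
        (hψc.comp (continuous_id.add w.continuous))))
      ((‖w‖ + C) / 8) (fun x => by
        refine (norm_symm_le hL _).trans ?_
        have h1 : ‖w (L x)‖ ≤ ‖w‖ := w.norm_coe_le_norm _
        have h2 := hb (x + w x)
        have h3 := norm_sub_le (w (L x)) (ψ (x + w x))
        linarith)
  have hT1 : ContractingWith (1 / 4) T1 := by
    refine ⟨by rw [← NNReal.coe_lt_coe]; norm_num, LipschitzWith.of_dist_le_mul fun w w' => ?_⟩
    rw [BoundedContinuousFunction.dist_le (by positivity)]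
    intro x
    change dist (L.symm (w (L x) - ψ (x + w x))) (L.symm (w' (L x) - ψ (x + w' x))) ≤ _
    rw [dist_eq_norm, ← map_sub]
    refine (norm_symm_le hL _).trans ?_
    have h1 : ‖w (L x) - w' (L x)‖ ≤ dist w w' := by
      rw [← dist_eq_norm]; exact dist_coe_le_dist _
    have h2 : ‖ψ (x + w x) - ψ (x + w' x)‖ ≤ dist w w' := by
      refine (hlip _ _).trans ?_
      rw [add_sub_add_left_eq_sub, ← dist_eq_norm]; exact dist_coe_le_dist _
    have h3 : w (L x) - ψ (x + w x) - (w' (L x) - ψ (x + w' x)) =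
      (w (L x) - w' (L x)) - (ψ (x + w x) - ψ (x + w' x)) := by abel
    rw [h3]
    have h4 := norm_sub_le (w (L x) - w' (L x)) (ψ (x + w x) - ψ (x + w' x))
    push_cast
    linarith
  let w : E →ᵇ E := ContractingWith.fixedPoint T1 hT1
  have hw : T1 w = w := hT1.fixedPoint_isFixedPt
  have hw' : ∀ x, L (w x) = w (L x) - ψ (x + w x) := by
    intro x
    have h1 : (T1 w) x = w x := by rw [hw]
    have h2 : (T1 w) x = L.symm (w (L x) - ψ (x + w x)) := rfl
    have h3 : w x = L.symm (w (L x) - ψ (x + w x)) := by rw [← h2, h1]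
    have h4 := congrArg L h3
    rwa [L.apply_symm_apply] at h4
  -- second fixed point
  let T2 : (E →ᵇ E) → (E →ᵇ E) := fun u =>
    BoundedContinuousFunction.ofNormedAddCommGroup
      (fun x => L.symm (ψ x + u (L x + ψ x)))
      (L.symm.continuous.comp (hψc.add (u.continuous.comp (L.continuous.add hψc))))
      ((C + ‖u‖) / 8) (fun x => by
        refine (norm_symm_le hL _).trans ?_
        have h1 : ‖u (L x + ψ x)‖ ≤ ‖u‖ := u.norm_coe_le_norm _
        have h2 := hb x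
        have h3 := norm_add_le (ψ x) (u (L x + ψ x))
        linarith)
  have hT2 : ContractingWith (1 / 4) T2 := by
    refine ⟨by rw [← NNReal.coe_lt_coe]; norm_num, LipschitzWith.of_dist_le_mul fun u u' => ?_⟩
    rw [BoundedContinuousFunction.dist_le (by positivity)]
    intro x
    change dist (L.symm (ψ x + u (L x + ψ x))) (L.symm (ψ x + u' (L x + ψ x))) ≤ _
    rw [dist_eq_norm, ← map_sub]
    refine (norm_symm_le hL _).trans ?_
    rw [add_sub_add_left_eq_sub, ← dist_eq_norm]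
    have h1 : dist (u (L x + ψ x)) (u' (L x + ψ x)) ≤ dist u u' := dist_coe_le_dist _
    have h2 : 0 ≤ dist u u' := dist_nonneg
    push_cast
    linarith
  let u : E →ᵇ E := ContractingWith.fixedPoint T2 hT2
  have hu : T2 u = u := hT2.fixedPoint_isFixedPt
  have hu' : ∀ x, L (u x) = ψ x + u (L x + ψ x) := by
    intro x
    have h1 : (T2 u) x = u x := by rw [hu]
    have h2 : (T2 u) x = L.symm (ψ x + u (L x + ψ x)) := rfl
    have h3 : u x = L.symm (ψ x + u (L x + ψ x)) := by rw [← h2, h1]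
    have h4 := congrArg L h3
    rwa [L.apply_symm_apply] at h4
  -- the two maps
  let G : E → E := fun x => L x + ψ x
  let φ : E → E := fun x => x + w x
  let k : E → E := fun x => x + u x
  have hφ : ∀ x, G (φ x) = φ (L x) := by
    intro x
    change L (x + w x) + ψ (x + w x) = L x + w (L x)
    rw [map_add, hw']; abel
  have hk : ∀ x, k (G x) = L (k x) := by
    intro x
    change L x + ψ x + u (L x + ψ x) = L (x + u x)
    have e : L (x + u x) = L x + L (u x) := map_add L _ _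
    rw [e, hu']; abel
  have hGexp : ∀ a b, 4 * ‖a - b‖ ≤ ‖G a - G b‖ := by
    intro a b
    have h1 := hL (a - b)
    have h2 := hlip a b
    have h3 : L (a - b) = (G a - G b) - (ψ a - ψ b) := by
      change _ = (L a + ψ a) - (L b + ψ b) - _
      rw [map_sub]; abel
    rw [h3] at h1
    have h4 := norm_sub_le (G a - G b) (ψ a - ψ b)
    have := norm_nonneg (a - b)
    linarith
  -- k ∘ φ = id
  have hkφ : ∀ x, k (φ x) = x := by
    have hbd : ∀ x, ‖k (φ x) - x‖ ≤ ‖w‖ + ‖u‖ := by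
      intro x
      have : k (φ x) - x = w x + u (φ x) := by
        change (x + w x) + u (φ x) - x = _; abel
      rw [this]
      exact (norm_add_le _ _).trans (add_le_add (w.norm_coe_le_norm _) (u.norm_coe_le_norm _))
    have hstep : ∀ x, k (φ (L x)) - L x = L (k (φ x) - x) := by
      intro x
      rw [← hφ, hk, map_sub]
    have hn : ∀ n : ℕ, ∀ x, 8 ^ n * ‖k (φ x) - x‖ ≤ ‖w‖ + ‖u‖ := by
      intro n
      induction n with
      | zero => intro x; simpa using hbd x
      | succ n ih =>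
        intro x
        have h1 := ih (L x)
        rw [hstep] at h1
        have h2 := hL (k (φ x) - x)
        calc _ = 8 ^ n * (8 * ‖k (φ x) - x‖) := by ring
          _ ≤ 8 ^ n * ‖L (k (φ x) - x)‖ := by gcongr
          _ ≤ _ := h1
    intro x
    by_contra hne
    have hpos : 0 < ‖k (φ x) - x‖ := norm_pos_iff.2 (sub_ne_zero.2 hne)
    obtain ⟨n, hn'⟩ := pow_unbounded_of_one_lt ((‖w‖ + ‖u‖) / ‖k (φ x) - x‖)
      (by norm_num : (1 : ℝ) < 8)
    rw [div_lt_iff₀ hpos] at hn'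
    linarith [hn n x]
  -- φ ∘ k = id
  have hφk : ∀ x, φ (k x) = x := by
    have hbd : ∀ x, ‖φ (k x) - x‖ ≤ ‖w‖ + ‖u‖ := by
      intro x
      have : φ (k x) - x = w (k x) + u x := by
        change (x + u x) + w (k x) - x = _; abel
      rw [this]
      exact (norm_add_le _ _).trans (add_le_add (w.norm_coe_le_norm _) (u.norm_coe_le_norm _))
    have hn : ∀ n : ℕ, ∀ x, 4 ^ n * ‖φ (k x) - x‖ ≤ ‖w‖ + ‖u‖ := by
      intro n
      induction n with
      | zero => intro x; simpa using hbd x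
      | succ n ih =>
        intro x
        have h1 := ih (G x)
        rw [hk, ← hφ] at h1
        have h2 := hGexp (φ (k x)) x
        calc _ = 4 ^ n * (4 * ‖φ (k x) - x‖) := by ring
          _ ≤ 4 ^ n * ‖G (φ (k x)) - G x‖ := by gcongr
          _ ≤ _ := h1
    intro x
    by_contra hne
    have hpos : 0 < ‖φ (k x) - x‖ := norm_pos_iff.2 (sub_ne_zero.2 hne)
    obtain ⟨n, hn'⟩ := pow_unbounded_of_one_lt ((‖w‖ + ‖u‖) / ‖φ (k x) - x‖)
      (by norm_num : (1 : ℝ) < 4)
    rw [div_lt_iff₀ hpos] at hn'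
    linarith [hn n x]
  refine ⟨{ toFun := φ, invFun := k, left_inv := hkφ, right_inv := hφk,
            continuous_toFun := continuous_id.add w.continuous,
            continuous_invFun := continuous_id.add u.continuous }, ?_, ?_⟩
  · change φ 0 = 0
    have h1 := hGexp (φ 0) 0
    rw [hφ] at h1
    have h2 : G 0 = 0 := by change L 0 + ψ 0 = 0; rw [map_zero, hψ0, add_zero]
    rw [h2, map_zero, sub_zero] at h1
    have : ‖φ 0‖ ≤ 0 := by linarith
    exact norm_le_zero_iff.1 this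
  · intro x
    exact hφ x

end lin

end Pool.Agent.Helper82.MS
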