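import Pool.Agent.Helper82.MS.Key

set_option autoImplicit false
set_option linter.unusedSectionVars false
set_option maxHeartbeats 4000000

open TopologicalSpace Set Filter Topology Metric

namespace Pool.Agent.Helper82.MS

variable {M : Type*} [MetricSpace M] [CompactSpace M]
variable {E : Type*} [NormedAddCommGroup E] [NormedSpace ℝ E] [FiniteDimensional ℝ E]

/-- The key lemma: cut at a source, join at a sink. -/
theorem no_shadowing (g : M ≃ₜ M) (Φ : E → M) (L : E ≃L[ℝ] E) (h : SourceModel g Φ L)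
    (v : E) (hv : v ≠ 0) (Q₁ Q₂ σ : Set M)
    (hQ₁ : IsCompact Q₁) (hQ₁' : IsConnected Q₁) (hQ₂ : IsCompact Q₂) (hQ₂' : IsConnected Q₂)
    (hσ : IsCompact σ) (hσ' : IsConnected σ) (hv1 : Φ v ∈ Q₁) (hv2 : Φ (-v) ∈ Q₂)
    (hd : Disjoint Q₁ Q₂)
    (ho1 : ∀ x, ‖x‖ < ‖v‖ → Φ x ∉ Q₁) (ho2 : ∀ x, ‖x‖ < ‖v‖ → Φ x ∉ Q₂)
    (ho3 : ∀ x, ‖x‖ < ‖v‖ → Φ x ∉ σ)
    (hs1 : (σ ∩ Q₁).Nonempty) (hs2 : (σ ∩ Q₂).Nonempty)
    (hdiam : ∀ δ : ℝ, 0 < δ → ∃ N : ℕ, ∀ n : ℕ, N ≤ n → ∀ x ∈ σ, ∀ y ∈ σ,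
      dist (g^[n] x) (g^[n] y) < δ) :
    ¬ HasShadowing (inducedMap g g.continuous) := by
  intro hsh
  have hvn : 0 < ‖v‖ := norm_pos_iff.2 hv
  set A : E →L[ℝ] E := (L : E →L[ℝ] E) with hA
  set Λ : ℝ := ‖A‖ with hΛdef
  have hΛ : 8 ≤ Λ := by
    have h1 := h.exp v
    have h2 : ‖L v‖ ≤ ‖A‖ * ‖v‖ := A.le_opNorm v
    have h3 : 8 * ‖v‖ ≤ Λ * ‖v‖ := h1.trans h2
    exact le_of_mul_le_mul_right h3 hvn
  have hΛ0 : 0 < Λ := by linarith
  obtain ⟨ρ, hρdef⟩ : ∃ ρ : ℝ, ρ = ‖v‖ / (4 * Λ) := ⟨_, rfl⟩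
  have hρ : 0 < ρ := by rw [hρdef]; positivity
  have hρΛ : 4 * Λ * ρ = ‖v‖ := by rw [hρdef]; field_simp
  obtain ⟨J, hJ⟩ : ∃ J : ℕ, 8 * Λ ≤ 8 ^ J := by
    obtain ⟨J, hJ⟩ := pow_unbounded_of_one_lt (8 * Λ) (by norm_num : (1 : ℝ) < 8)
    exact ⟨J, hJ.le⟩
  have hΛJ : 1 ≤ Λ ^ J := one_le_pow₀ (by linarith)
  obtain ⟨ε', hε'def⟩ : ∃ ε' : ℝ, ε' = ρ / (4 * (1 + 2 * Λ ^ J)) := ⟨_, rfl⟩
  have hε' : 0 < ε' := by rw [hε'def]; positivity
  have hJε : (1 + 2 * Λ ^ J) * ε' ≤ ρ / 4 := by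
    rw [hε'def]; apply le_of_eq; field_simp
  have hε'ρ : ε' ≤ ρ / 4 := by nlinarith
  obtain ⟨ε1, hε1, hU⟩ := unif_open h.emb (2 * Λ * ρ) hε'
  -- the central curve
  let γ : ℝ → M := fun t => Φ (t • v)
  have hγ : Continuous γ := h.emb.continuous.comp (continuous_id.smul continuous_const)
  obtain ⟨τ, hτdef⟩ : ∃ τ : ℝ, τ = ρ / (2 * ‖v‖) := ⟨_, rfl⟩
  have hτ : 0 < τ := by rw [hτdef]; positivity
  have hτv : τ * ‖v‖ = ρ / 2 := by rw [hτdef]; field_simp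
  have hγQ1 : ∀ t : ℝ, |t| < 1 → γ t ∉ Q₁ := fun t ht => ho1 _ (by
    rw [norm_smul, Real.norm_eq_abs]; nlinarith)
  have hγQ2 : ∀ t : ℝ, |t| < 1 → γ t ∉ Q₂ := fun t ht => ho2 _ (by
    rw [norm_smul, Real.norm_eq_abs]; nlinarith)
  have hγinj : Function.Injective γ := by
    intro s t hst
    have := h.emb.injective hst
    exact smul_left_injective ℝ hv this
  have hγ1 : γ 1 ∈ Q₁ := by simpa [γ] using hv1
  have hγ2 : γ (-1) ∈ Q₂ := by simpa [γ] using hv2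
  have hτ1 : τ ≤ 1 := by
    have : τ * ‖v‖ ≤ 1 * ‖v‖ := by rw [hτv, one_mul, ← hρΛ]; nlinarith
    exact le_of_mul_le_mul_right this hvn
  let K1 : Set M := γ '' Icc τ 1 ∪ Q₁
  let K2 : Set M := γ '' Icc (-1) (-τ) ∪ Q₂
  have hK1 : IsCompact K1 := (isCompact_Icc.image hγ).union hQ₁
  have hK2 : IsCompact K2 := (isCompact_Icc.image hγ).union hQ₂
  have hK12 : Disjoint K1 K2 := by
    rw [Set.disjoint_left]
    rintro x (⟨t, ht, rfl⟩ | hx) (⟨s, hs, hst⟩ | hx')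
    · have := hγinj hst
      rw [this] at hs
      have := ht.1; have := hs.2; linarith
    · rcases eq_or_lt_of_le ht.2 with h1 | h1
      · rw [h1] at hx'
        exact Set.disjoint_left.1 hd hγ1 hx'
      · exact hγQ2 t (by rw [abs_lt]; constructor <;> linarith [ht.1]) hx'
    · rcases eq_or_lt_of_le hs.1 with h1 | h1
      · rw [← h1] at hst
        rw [← hst] at hx
        exact Set.disjoint_left.1 hd hx hγ2
      · rw [← hst] at hx
        exact hγQ1 s (by rw [abs_lt]; constructor <;> linarith [hs.2]) hx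
    · exact Set.disjoint_left.1 hd hx hx'
  obtain ⟨ε2, hε2, hT⟩ := hK12.exists_thickenings hK1 hK2.isClosed
  obtain ⟨ε, hεdef⟩ : ∃ ε : ℝ, ε = min ε1 ε2 := ⟨_, rfl⟩
  have hε : 0 < ε := by rw [hεdef]; exact lt_min hε1 hε2
  have hmin2 : ε ≤ ε2 := by rw [hεdef]; exact min_le_right _ _
  have hmin1 : ε ≤ ε1 := by rw [hεdef]; exact min_le_left _ _
  obtain ⟨δ, hδ, H⟩ := hsh ε hε
  obtain ⟨N, hN⟩ := hdiam (δ / 2) (by linarith)
  obtain ⟨n, hndef⟩ : ∃ n : ℕ, n = N + 1 := ⟨_, rfl⟩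
  have hN' := hN n (by omega)
  -- the small central piece
  obtain ⟨c, hc0, hc1, hc⟩ : ∃ c : ℝ, 0 < c ∧ c ≤ 1 ∧
      ∀ t : ℝ, |t| ≤ c → dist (g^[n] (γ t)) (g^[n] (γ 0)) < δ / 4 := by
    have hcont : Continuous fun t => g^[n] (γ t) := (g.continuous.iterate n).comp hγ
    obtain ⟨η, hη, h1⟩ := Metric.continuous_iff.1 hcont 0 (δ / 4) (by linarith)
    refine ⟨min (η / 2) 1, by positivity, min_le_right _ _, fun t ht => h1 t ?_⟩
    rw [Real.dist_eq, sub_zero]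
    have := min_le_left (η / 2) 1
    linarith
  let A0 : Set M := γ '' Icc (-1) 1 ∪ Q₁ ∪ Q₂
  let T : Set M := (γ '' Icc c 1 ∪ Q₁) ∪ σ ∪ (γ '' Icc (-1) (-c) ∪ Q₂)
  have hA0c : IsCompact A0 := ((isCompact_Icc.image hγ).union hQ₁).union hQ₂
  have hTc : IsCompact T :=
    (((isCompact_Icc.image hγ).union hQ₁).union hσ).union ((isCompact_Icc.image hγ).union hQ₂)
  have hconnIcc : ∀ a b : ℝ, a ≤ b → IsConnected (γ '' Icc a b) := fun a b hab =>
    (isConnected_Icc hab).image γ hγ.continuousOn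
  have hA0 : IsConnected A0 := by
    refine IsConnected.union ?_ (IsConnected.union ?_ (hconnIcc _ _ (by norm_num)) hQ₁') hQ₂'
    · exact ⟨γ (-1), Or.inl ⟨-1, by constructor <;> norm_num, rfl⟩, hγ2⟩
    · exact ⟨γ 1, ⟨1, by constructor <;> norm_num, rfl⟩, hγ1⟩
  have hT' : IsConnected T := by
    refine IsConnected.union ?_ (IsConnected.union ?_
      (IsConnected.union ?_ (hconnIcc _ _ hc1) hQ₁') hσ')
      (IsConnected.union ?_ (hconnIcc _ _ (by linarith)) hQ₂')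
    · obtain ⟨x, hx, hx'⟩ := hs2
      exact ⟨x, Or.inr hx, Or.inr hx'⟩
    · obtain ⟨x, hx, hx'⟩ := hs1
      exact ⟨x, Or.inr hx', hx⟩
    · exact ⟨γ 1, ⟨1, ⟨hc1, le_rfl⟩, rfl⟩, hγ1⟩
    · exact ⟨γ (-1), ⟨-1, ⟨le_rfl, by linarith⟩, rfl⟩, hγ2⟩
  let A0' : Subcontinua M := ⟨⟨⟨A0, hA0c⟩, hA0.nonempty⟩, hA0⟩
  let T0' : Subcontinua M := ⟨⟨⟨T, hTc⟩, hT'.nonempty⟩, hT'⟩
  have hA0coe : ((A0'.1 : NonemptyCompacts M) : Set M) = A0 := rfl
  have hTcoe : ((T0'.1 : NonemptyCompacts M) : Set M) = T := rfl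
  set G := inducedMap g g.continuous with hG
  -- the pseudo-orbit
  let B : ℕ → Subcontinua M := fun j => if j < n then A0' else T0'
  have hjump : dist (G^[n] A0') (G^[n] T0') < δ := by
    refine lt_of_le_of_lt (dist_le_of_mem (r := δ / 2) (by linarith) ?_ ?_) (by linarith)
    · rw [inducedMap_iterate_coe, inducedMap_iterate_coe]
      rintro _ ⟨x, hx, rfl⟩
      rw [hA0coe] at hx
      have hself : x ∈ T → ∃ y ∈ g^[n] '' T, dist (g^[n] x) y ≤ δ / 2 := fun hxT =>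
        ⟨g^[n] x, ⟨x, hxT, rfl⟩, by rw [dist_self]; linarith⟩
      rcases hx with (⟨t, ht, rfl⟩ | hx) | hx
      · by_cases h1 : c ≤ t
        · exact hself (Or.inl (Or.inl (Or.inl ⟨t, ⟨h1, ht.2⟩, rfl⟩)))
        · by_cases h2 : t ≤ -c
          · exact hself (Or.inr (Or.inl ⟨t, ⟨ht.1, h2⟩, rfl⟩))
          · push Not at h1 h2
            refine ⟨g^[n] (γ c), ⟨γ c, Or.inl (Or.inl (Or.inl ⟨c, ⟨le_rfl, hc1⟩, rfl⟩)), rfl⟩, ?_⟩
            have e1 := hc t (by rw [abs_le]; constructor <;> linarith)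
            have e2 := hc c (by rw [abs_of_pos hc0])
            have e3 := dist_triangle_right (g^[n] (γ t)) (g^[n] (γ c)) (g^[n] (γ 0))
            linarith
      · exact hself (Or.inl (Or.inl (Or.inr hx)))
      · exact hself (Or.inr (Or.inr hx))
    · rw [inducedMap_iterate_coe, inducedMap_iterate_coe]
      rintro _ ⟨x, hx, rfl⟩
      rw [hTcoe] at hx
      have hself : x ∈ A0 → ∃ y ∈ g^[n] '' A0, dist (g^[n] x) y ≤ δ / 2 := fun hxT =>
        ⟨g^[n] x, ⟨x, hxT, rfl⟩, by rw [dist_self]; linarith⟩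
      rcases hx with ((⟨t, ht, rfl⟩ | hx) | hx) | (⟨t, ht, rfl⟩ | hx)
      · exact hself (Or.inl (Or.inl ⟨t, ⟨by linarith [ht.1], ht.2⟩, rfl⟩))
      · exact hself (Or.inl (Or.inr hx))
      · obtain ⟨y, hy, hy'⟩ := hs1
        exact ⟨g^[n] y, ⟨y, Or.inl (Or.inr hy'), rfl⟩, (hN' x hx y hy).le⟩
      · exact hself (Or.inl (Or.inl ⟨t, ⟨ht.1, by linarith [ht.2]⟩, rfl⟩))
      · exact hself (Or.inr hx)
  obtain ⟨Z, hZ⟩ := H (fun j => G^[j] (B j)) (by
    intro j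
    rw [← Function.iterate_succ_apply' G j]
    rcases lt_trichotomy (j + 1) n with hj | hj | hj
    · have : B j = A0' := if_pos (by omega)
      have h2 : B (j + 1) = A0' := if_pos (by omega)
      rw [this, h2, dist_self]; exact hδ
    · have : B j = A0' := if_pos (by omega)
      have h2 : B (j + 1) = T0' := if_neg (by omega)
      rw [this, h2, Nat.succ_eq_add_one, hj]
      exact hjump
    · have : B j = T0' := if_neg (by omega)
      have h2 : B (j + 1) = T0' := if_neg (by omega)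
      rw [this, h2, dist_self]; exact hδ)
  -- points of the shadowing continuum
  have hZmem : ∀ z ∈ (Z.1 : Set M), ∀ j : ℕ, ∃ w ∈ ((B j).1 : Set M),
      dist (g^[j] z) (g^[j] w) < ε := by
    intro z hz j
    have hz' : g^[j] z ∈ (((G^[j] Z).1 : NonemptyCompacts M) : Set M) := by
      rw [inducedMap_iterate_coe]; exact ⟨z, hz, rfl⟩
    obtain ⟨q, hq, hq'⟩ := exists_of_dist_lt (hZ j) hz'
    rw [inducedMap_iterate_coe] at hq
    obtain ⟨w, hw, rfl⟩ := hq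
    exact ⟨w, hw, hq'⟩
  have hB : ∀ j, ∀ w ∈ ((B j).1 : Set M), w ∈ γ '' Icc (-1) 1 ∨ w ∈ Q₁ ∨ w ∈ Q₂ ∨ w ∈ σ := by
    intro j w hw
    by_cases hj : j < n
    · have : B j = A0' := if_pos hj
      rw [this, hA0coe] at hw
      rcases hw with (hw | hw) | hw
      · exact Or.inl hw
      · exact Or.inr (Or.inl hw)
      · exact Or.inr (Or.inr (Or.inl hw))
    · have : B j = T0' := if_neg hj
      rw [this, hTcoe] at hw
      rcases hw with ((⟨t, ht, rfl⟩ | hw) | hw) | (⟨t, ht, rfl⟩ | hw)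
      · exact Or.inl ⟨t, ⟨by linarith [ht.1], ht.2⟩, rfl⟩
      · exact Or.inr (Or.inl hw)
      · exact Or.inr (Or.inr (Or.inr hw))
      · exact Or.inl ⟨t, ⟨ht.1, by linarith [ht.2]⟩, rfl⟩
      · exact Or.inr (Or.inr (Or.inl hw))
  -- the points of the tail which are mapped into `Φ (ball ‖v‖)` lie on the central curve
  have hBΦ : ∀ j, ∀ w ∈ ((B j).1 : Set M), ∀ y : E, ‖y‖ < ‖v‖ → g^[j] w = Φ y →
      ∃ t : ℝ, w = γ t ∧ t ∈ Icc (-1 : ℝ) 1 ∧ y = t • (A ^ j) v := by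
    intro j w hw y hy hwy
    obtain ⟨x, hx, hxy⟩ := h.pull j w y hwy
    have hxv : ‖x‖ < ‖v‖ := lt_of_le_of_lt ((h.norm_mono j x).trans (by rw [hxy])) hy
    rcases hB j w hw with ⟨t, ht, rfl⟩ | h1 | h1 | h1
    · refine ⟨t, rfl, ht, ?_⟩
      have hx' : t • v = x := h.emb.injective hx
      rw [← hxy, ← hx', ← hA, map_smul]
    · rw [hx] at h1; exact absurd h1 (ho1 x hxv)
    · rw [hx] at h1; exact absurd h1 (ho2 x hxv)
    · rw [hx] at h1; exact absurd h1 (ho3 x hxv)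
  -- `Φ 0` is not in `Z`
  have hrZ : Φ 0 ∉ (Z.1 : Set M) := by
    intro hr
    -- choose j large
    obtain ⟨j0, hj0⟩ := pow_unbounded_of_one_lt (ε' / (c * ‖v‖)) (by norm_num : (1 : ℝ) < 8)
    obtain ⟨j, hjdef⟩ : ∃ j : ℕ, j = max n j0 := ⟨_, rfl⟩
    obtain ⟨w, hw, hdw⟩ := hZmem _ hr j
    rw [h.push, map_zero] at hdw
    obtain ⟨y, hy, hy'⟩ := hU 0 (by rw [norm_zero]; positivity) _
      (lt_of_lt_of_le hdw hmin1)
    rw [sub_zero] at hy'
    obtain ⟨t, ht, -, hyt⟩ := hBΦ j w hw y (by nlinarith) hy.symm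
    have hBj : B j = T0' := if_neg (by rw [hjdef]; simp)
    -- |t| ≥ c
    have htc : c ≤ |t| := by
      rw [hBj, hTcoe, ht] at hw
      rcases hw with ((⟨s, hs, hst⟩ | hw) | hw) | (⟨s, hs, hst⟩ | hw)
      · rw [hγinj hst] at hs
        exact hs.1.trans (le_abs_self t)
      · by_contra hcon
        push Not at hcon
        exact hγQ1 t (by linarith) hw
      · by_contra hcon
        push Not at hcon
        refine ho3 (t • v) ?_ hw
        rw [norm_smul, Real.norm_eq_abs]; nlinarith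
      · rw [hγinj hst] at hs
        have := hs.2
        have := neg_abs_le t
        rw [← abs_neg]
        exact le_trans (by linarith) (le_abs_self (-t))
      · by_contra hcon
        push Not at hcon
        exact hγQ2 t (by linarith) hw
    have h8 : (8 : ℝ) ^ j0 ≤ 8 ^ j :=
      pow_le_pow_right₀ (by norm_num) (by rw [hjdef]; exact le_max_right _ _)
    have h9 : ε' < 8 ^ j0 * (c * ‖v‖) := by
      rwa [div_lt_iff₀ (by positivity)] at hj0
    have h10 : 8 ^ j * ‖v‖ ≤ ‖(A ^ j) v‖ := h.norm_ge j v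
    have h11 : ‖y‖ = |t| * ‖(A ^ j) v‖ := by rw [hyt, norm_smul, Real.norm_eq_abs]
    have h12 : c * (8 ^ j * ‖v‖) ≤ |t| * ‖(A ^ j) v‖ := by
      apply mul_le_mul htc h10 (by positivity) (by positivity)
    have h13 : 8 ^ j0 * (c * ‖v‖) ≤ 8 ^ j * (c * ‖v‖) := by gcongr
    nlinarith
  -- the annulus time
  have hann : ∀ x : E, x ≠ 0 → ‖x‖ < ρ → ∃ j : ℕ, ρ ≤ ‖(A ^ j) x‖ ∧ ‖(A ^ j) x‖ ≤ Λ * ρ := by
    intro x hx hxρ
    have hex : ∃ j : ℕ, ρ ≤ ‖(A ^ j) x‖ := by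
      obtain ⟨j, hj⟩ := pow_unbounded_of_one_lt (ρ / ‖x‖) (by norm_num : (1 : ℝ) < 8)
      have hxn : 0 < ‖x‖ := norm_pos_iff.2 hx
      rw [div_lt_iff₀ hxn] at hj
      exact ⟨j, hj.le.trans (h.norm_ge j x)⟩
    classical
    obtain ⟨j, hj, hjmin⟩ : ∃ j : ℕ, ρ ≤ ‖(A ^ j) x‖ ∧ ∀ i < j, ¬ ρ ≤ ‖(A ^ i) x‖ :=
      ⟨Nat.find hex, Nat.find_spec hex, fun i hi => Nat.find_min hex hi⟩
    refine ⟨j, hj, ?_⟩
    rcases Nat.eq_zero_or_pos j with rfl | hjpos
    · simp at hj; linarith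
    · obtain ⟨i, rfl⟩ := Nat.exists_eq_add_of_le' hjpos
      have h1 := hjmin i (by omega)
      push Not at h1
      have h2 : (A ^ (i + 1)) x = A ((A ^ i) x) := by rw [pow_succ']; rfl
      rw [h2]
      exact (A.le_opNorm _).trans (by gcongr)
  -- the separation
  let O1 : Set M := thickening ε K1 ∪ Φ '' (⋃ j, SourceModel.S L ρ ε' v j)
  let O2 : Set M := thickening ε K2 ∪ Φ '' (⋃ j, SourceModel.S L ρ ε' (-v) j)
  have hO1 : IsOpen O1 := isOpen_thickening.union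
    (h.emb.isOpenMap _ (isOpen_iUnion fun j => SourceModel.isOpen_S ρ ε' v j))
  have hO2 : IsOpen O2 := isOpen_thickening.union
    (h.emb.isOpenMap _ (isOpen_iUnion fun j => SourceModel.isOpen_S ρ ε' (-v) j))
  have hcover : (Z.1 : Set M) ⊆ O1 ∪ O2 := by
    intro z hz
    obtain ⟨q, hq, hqz⟩ := hZmem z hz 0
    simp only [Function.iterate_zero, id] at hqz
    have hB0 : B 0 = A0' := if_pos (by omega)
    rw [hB0, hA0coe] at hq
    have hK1' : q ∈ K1 → z ∈ O1 ∪ O2 := fun hqK =>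
      Or.inl (Or.inl (mem_thickening_iff.2 ⟨q, hqK, hqz⟩))
    have hK2' : q ∈ K2 → z ∈ O1 ∪ O2 := fun hqK =>
      Or.inr (Or.inl (mem_thickening_iff.2 ⟨q, hqK, hqz⟩))
    rcases hq with (⟨t, ht, rfl⟩ | hq) | hq
    · by_cases h1 : τ ≤ t
      · exact hK1' (Or.inl ⟨t, ⟨h1, ht.2⟩, rfl⟩)
      · by_cases h2 : t ≤ -τ
        · exact hK2' (Or.inl ⟨t, ⟨ht.1, h2⟩, rfl⟩)
        · push Not at h1 h2
          have htv : ‖t • v‖ < ρ / 2 := by
            rw [norm_smul, Real.norm_eq_abs, ← hτv]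
            have : |t| < τ := by rw [abs_lt]; constructor <;> linarith
            gcongr
          have hρ2 : ρ ≤ 2 * Λ * ρ := by nlinarith
          obtain ⟨y, hy, hy'⟩ := hU (t • v) (by linarith) z
            (by rw [dist_comm]; exact lt_of_lt_of_le hqz hmin1)
          have hyρ : ‖y‖ < ρ := by
            have := norm_add_le (y - t • v) (t • v)
            rw [sub_add_cancel] at this
            linarith
          have hy0 : y ≠ 0 := by
            rintro rfl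
            exact hrZ (by rw [hy]; exact hz)
          obtain ⟨j, hj1, hj2⟩ := hann y hy0 hyρ
          obtain ⟨w, hw, hwd⟩ := hZmem z hz j
          rw [← hy, h.push] at hwd
          rw [← hA] at hwd
          obtain ⟨y', hy1, hy2⟩ := hU ((A ^ j) y) (by nlinarith) _ (lt_of_lt_of_le hwd hmin1)
          have hy'v : ‖y'‖ < ‖v‖ := by
            have := norm_add_le (y' - (A ^ j) y) ((A ^ j) y)
            rw [sub_add_cancel] at this
            nlinarith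
          obtain ⟨s, hs, -, hys⟩ := hBΦ j w hw y' hy'v hy1.symm
          have hs0 : s ≠ 0 := by
            rintro rfl
            rw [zero_smul] at hys
            rw [hys, zero_sub, norm_neg] at hy2
            linarith
          rw [hys, norm_sub_rev] at hy2
          rcases lt_or_gt_of_ne hs0 with hneg | hpos
          · refine Or.inr (Or.inr ⟨y, mem_iUnion.2 ⟨j, ?_, ?_, -s, by linarith, ?_⟩, hy⟩)
            · rw [← hA]; linarith
            · rw [← hA]; nlinarith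
            · rw [← hA, map_neg, smul_neg, neg_smul, neg_neg]; exact hy2
          · refine Or.inl (Or.inr ⟨y, mem_iUnion.2 ⟨j, ?_, ?_, s, hpos, ?_⟩, hy⟩)
            · rw [← hA]; linarith
            · rw [← hA]; nlinarith
            · rw [← hA]; exact hy2
    · exact hK1' (Or.inr hq)
    · exact hK2' (Or.inr hq)
  -- points of thickening K1 in Φ(ball) are in S v 0
  have hmix : ∀ (w : E) (K Q : Set M), ‖w‖ = ‖v‖ → (∀ x, ‖x‖ < ‖v‖ → Φ x ∉ Q) →
      (∀ q ∈ K, (∃ t ∈ Icc τ 1, q = Φ (t • w)) ∨ q ∈ Q) →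
      ∀ x : E, ‖x‖ < 2 * Λ * ρ → Φ x ∈ thickening ε K → x ∈ SourceModel.S L ρ ε' w 0 := by
    intro w K Q hwv hQ hK x hx hxK
    obtain ⟨q, hq, hqd⟩ := mem_thickening_iff.1 hxK
    obtain ⟨y, hy, hy'⟩ := hU x hx.le q (lt_of_lt_of_le hqd hmin1)
    have hyv : ‖y‖ < ‖v‖ := by
      have := norm_add_le (y - x) x
      rw [sub_add_cancel] at this
      nlinarith
    rcases hK q hq with ⟨t, ht, rfl⟩ | hqQ
    · have hyt : y = t • w := h.emb.injective hy
      have htw : ρ / 2 ≤ ‖t • w‖ := by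
        rw [norm_smul, Real.norm_eq_abs, hwv, ← hτv]
        have := le_abs_self t
        have := ht.1
        gcongr
        linarith
      rw [hyt, norm_sub_rev] at hy'
      refine ⟨?_, ?_, t, by linarith [ht.1], ?_⟩
      · simp only [pow_zero, ContinuousLinearMap.one_apply]
        have := norm_sub_norm_le (t • w) x
        rw [norm_sub_rev] at this
        linarith
      · simpa using hx
      · simpa using hy'
    · rw [← hy] at hqQ
      exact absurd hqQ (hQ y hyv)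
  have hneg : ∀ t : ℝ, γ t = Φ ((-t) • (-v)) := by
    intro t
    change Φ (t • v) = _
    rw [smul_neg, neg_smul, neg_neg]
  have hsep : ∀ z ∈ O1, z ∉ O2 := by
    rintro z (hz1 | ⟨x, hx, rfl⟩) (hz2 | ⟨x', hx', hxx'⟩)
    · exact Set.disjoint_left.1 hT (thickening_mono hmin2 _ hz1) (thickening_mono hmin2 _ hz2)
    · obtain ⟨j, hj⟩ := mem_iUnion.1 hx'
      rw [← hxx'] at hz1
      have hlt : ‖x'‖ < 2 * Λ * ρ := lt_of_le_of_lt (h.norm_mono j x') hj.2.1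
      have h0 := hmix v K1 Q₁ rfl ho1 (by
        rintro q (⟨t, ht, rfl⟩ | hq)
        · exact Or.inl ⟨t, ht, rfl⟩
        · exact Or.inr hq) x' hlt hz1
      exact h.S_disjoint' hρ hε' hΛ hJ hJε h0 hj
    · obtain ⟨j, hj⟩ := mem_iUnion.1 hx
      have hlt : ‖x‖ < 2 * Λ * ρ := lt_of_le_of_lt (h.norm_mono j x) hj.2.1
      have h0 := hmix (-v) K2 Q₂ (norm_neg v) ho2 (by
        rintro q (⟨t, ht, rfl⟩ | hq)
        · exact Or.inl ⟨-t, ⟨by linarith [ht.2], by linarith [ht.1]⟩, hneg t⟩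
        · exact Or.inr hq) x hlt hz2
      exact h.S_disjoint' hρ hε' hΛ hJ hJε hj h0
    · obtain ⟨i, hi⟩ := mem_iUnion.1 hx
      obtain ⟨j, hj⟩ := mem_iUnion.1 hx'
      have := h.emb.injective hxx'
      rw [this] at hj
      exact h.S_disjoint' hρ hε' hΛ hJ hJε hi hj
  -- `Z` meets both sets
  have hZ0 : ∀ q ∈ A0, ∃ z ∈ (Z.1 : Set M), dist q z < ε := by
    intro q hq
    have h0 := hZ 0
    simp only [Function.iterate_zero, id] at h0
    have hB0 : B 0 = A0' := if_pos (by omega)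
    rw [hB0, dist_comm] at h0
    exact exists_of_dist_lt h0 hq
  have hne1 : ((Z.1 : Set M) ∩ O1).Nonempty := by
    obtain ⟨z, hz, hz'⟩ := hZ0 (γ 1) (Or.inl (Or.inr hγ1))
    exact ⟨z, hz, Or.inl (mem_thickening_iff.2 ⟨γ 1, Or.inr hγ1, by rw [dist_comm]; exact hz'⟩)⟩
  have hne2 : ((Z.1 : Set M) ∩ O2).Nonempty := by
    obtain ⟨z, hz, hz'⟩ := hZ0 (γ (-1)) (Or.inr hγ2)
    exact ⟨z, hz, Or.inl (mem_thickening_iff.2 ⟨γ (-1), Or.inr hγ2, by rw [dist_comm]; exact hz'⟩)⟩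
  obtain ⟨z, -, hz1, hz2⟩ := Z.2.isPreconnected O1 O2 hO1 hO2 hcover hne1 hne2
  exact hsep z hz1 hz2

end Pool.Agent.Helper82.MS
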