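import Pool.Agent.Helper82.MS.Main1
import Pool.Agent.Helper82.MS.Dyn

set_option autoImplicit false
set_option linter.unusedSectionVars false
set_option maxHeartbeats 4000000

open Set Filter Topology Metric
open scoped NNReal

namespace Pool.Agent.Helper82.MS

namespace SourceModel

variable {M : Type*} [MetricSpace M] [CompactSpace M]
variable {E : Type*} [NormedAddCommGroup E] [NormedSpace ℝ E] [FiniteDimensional ℝ E]
variable {g : M ≃ₜ M} {Φ : E → M} {L : E ≃L[ℝ] E}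

theorem conj_symm (h : SourceModel g Φ L) (x : E) : g.symm (Φ x) = Φ (L.symm x) := by
  rw [Homeomorph.symm_apply_eq, h.conj, L.apply_symm_apply]

theorem conj_symm_iterate (h : SourceModel g Φ L) (n : ℕ) (x : E) :
    g.symm^[n] (Φ x) = Φ (L.symm^[n] x) := by
  induction n generalizing x with
  | zero => rfl
  | succ n ih => rw [Function.iterate_succ_apply, h.conj_symm, ih, Function.iterate_succ_apply]

theorem fix (h : SourceModel g Φ L) : g (Φ 0) = Φ 0 := by rw [h.conj, map_zero]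

theorem symm_norm (h : SourceModel g Φ L) (n : ℕ) (z : E) : 8 ^ n * ‖L.symm^[n] z‖ ≤ ‖z‖ := by
  induction n generalizing z with
  | zero => simp
  | succ n ih =>
    rw [Function.iterate_succ_apply]
    have h1 := ih (L.symm z)
    have h2 := norm_symm_le h.exp z
    have : (8 : ℝ) ^ (n + 1) * ‖L.symm^[n] (L.symm z)‖ = 8 * (8 ^ n * ‖L.symm^[n] (L.symm z)‖) := by
      ring
    rw [this]; linarith

/-- the unstable set is the range of the model -/
theorem mem_range_of_tendsto (h : SourceModel g Φ L) {x : M}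
    (hx : Tendsto (fun n : ℕ => g.symm^[n] x) atTop (𝓝 (Φ 0))) : x ∈ range Φ := by
  have h1 : range Φ ∈ 𝓝 (Φ 0) := h.emb.isOpen_range.mem_nhds ⟨0, rfl⟩
  obtain ⟨n, y, hy⟩ := (hx.eventually_mem h1).exists
  have h2 : x = g^[n] (Φ y) := by
    rw [hy]
    exact ((Function.LeftInverse.iterate g.apply_symm_apply n) x).symm
  rw [h2, h.push]
  exact ⟨_, rfl⟩

/-- uniform backward convergence on compact subsets of the unstable set -/
theorem uniform (h : SourceModel g Φ L) {K : Set M} (hK : IsCompact K) (hKr : K ⊆ range Φ)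
    {δ : ℝ} (hδ : 0 < δ) :
    ∃ N : ℕ, ∀ n : ℕ, N ≤ n → ∀ x ∈ K, dist (g.symm^[n] x) (Φ 0) < δ := by
  have hK' : IsCompact (Φ ⁻¹' K) := h.emb.isInducing.isCompact_preimage' hK hKr
  obtain ⟨R, hR0, hR⟩ := hK'.isBounded.exists_pos_norm_le
  obtain ⟨η, hη, h1⟩ := Metric.continuousAt_iff.1 (h.emb.continuous.continuousAt (x := 0)) δ hδ
  obtain ⟨N, hN⟩ := pow_unbounded_of_one_lt (R / η) (by norm_num : (1 : ℝ) < 8)
  refine ⟨N, fun n hn x hx => ?_⟩
  obtain ⟨y, rfl⟩ := hKr hx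
  rw [h.conj_symm_iterate]
  apply h1
  rw [dist_zero_right]
  have h2 := h.symm_norm n y
  have h3 := hR y hx
  have h4 : (8 : ℝ) ^ N ≤ 8 ^ n := pow_le_pow_right₀ (by norm_num) hn
  rw [div_lt_iff₀ hη] at hN
  by_contra hcon
  push Not at hcon
  have h5 : (8 : ℝ) ^ N * η ≤ 8 ^ n * ‖L.symm^[n] y‖ := by gcongr
  linarith

theorem tendsto_of_mem_range (h : SourceModel g Φ L) (x : E) :
    Tendsto (fun n : ℕ => g.symm^[n] (Φ x)) atTop (𝓝 (Φ 0)) := by
  rw [Metric.tendsto_atTop]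
  intro ε hε
  obtain ⟨N, hN⟩ := h.uniform (K := {Φ x}) isCompact_singleton (by simp) hε
  exact ⟨N, fun n hn => hN n hn _ rfl⟩

/-- only the source itself is forward asymptotic to the source -/
theorem eq_of_tendsto (h : SourceModel g Φ L) {x : M}
    (hx : Tendsto (fun n : ℕ => g^[n] x) atTop (𝓝 (Φ 0))) : x = Φ 0 := by
  have h1 : Φ '' ball (0 : E) 1 ∈ 𝓝 (Φ 0) :=
    (h.emb.isOpenMap _ isOpen_ball).mem_nhds ⟨0, by simp, rfl⟩
  obtain ⟨N, hN⟩ := Filter.eventually_atTop.1 (hx.eventually_mem h1)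
  obtain ⟨y, hy, hyN⟩ := hN N le_rfl
  have h2 : ∀ m : ℕ, 8 ^ m * ‖y‖ ≤ 1 := by
    intro m
    obtain ⟨z, hz, hzm⟩ := hN (N + m) (by omega)
    rw [Nat.add_comm, Function.iterate_add_apply, ← hyN, h.push] at hzm
    have h3 := h.emb.injective hzm
    have h4 := h.norm_ge m y
    rw [← h3] at h4
    have h5 : ‖z‖ < 1 := by simpa using hz
    linarith
  have hy0 : y = 0 := by
    by_contra hne
    have hpos : 0 < ‖y‖ := norm_pos_iff.2 hne
    obtain ⟨m, hm⟩ := pow_unbounded_of_one_lt (1 / ‖y‖) (by norm_num : (1 : ℝ) < 8)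
    rw [div_lt_iff₀ hpos] at hm
    linarith [h2 m]
  rw [hy0] at hyN
  have h6 : g^[N] x = g^[N] (Φ 0) := by
    rw [← hyN, Function.iterate_fixed h.fix]
  exact g.injective.iterate N h6

end SourceModel

section highdim

variable {M : Type*} [MetricSpace M] [CompactSpace M]
variable {E : Type*} [NormedAddCommGroup E] [InnerProductSpace ℝ E] [FiniteDimensional ℝ E]
variable {E' : Type*} [NormedAddCommGroup E'] [NormedSpace ℝ E'] [FiniteDimensional ℝ E']

theorem no_shadowing_highdim {g : M ≃ₜ M} {Φ : E → M} {L : E ≃L[ℝ] E} (h : SourceModel g Φ L)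
    {Ψ : E' → M} {L' : E' ≃L[ℝ] E'} (h' : SourceModel g.symm Ψ L') (hdim : 2 ≤ Module.finrank ℝ E)
    {y : E} (hy : y ≠ 0) (hyΨ : Φ y ∈ range Ψ) : ¬ HasShadowing (inducedMap g g.continuous) := by
  -- an orthogonal vector
  obtain ⟨v0, hv0, hv0y⟩ : ∃ v0 : E, v0 ≠ 0 ∧ inner ℝ v0 y = 0 := by
    have h1 : Module.finrank ℝ (Submodule.span ℝ {y}) = 1 := finrank_span_singleton hy
    have h2 := (Submodule.span ℝ {y}).finrank_add_finrank_orthogonal
    have h3 : (Submodule.span ℝ {y})ᗮ ≠ ⊥ := by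
      intro hbot
      rw [hbot, finrank_bot] at h2
      omega
    obtain ⟨v0, hv0, hne⟩ := (Submodule.ne_bot_iff _).1 h3
    refine ⟨v0, hne, ?_⟩
    rw [real_inner_comm]
    exact Submodule.inner_right_of_mem_orthogonal (Submodule.mem_span_singleton_self y) hv0
  have hopen : IsOpen (Φ ⁻¹' range Ψ) := h'.emb.isOpen_range.preimage h.emb.continuous
  obtain ⟨κ, hκ, hball⟩ := Metric.isOpen_iff.1 hopen y hyΨ
  have hy0 : 0 < ‖y‖ := norm_pos_iff.2 hy
  have hv0n : 0 < ‖v0‖ := norm_pos_iff.2 hv0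
  obtain ⟨m, hm, hmκ, hmy⟩ : ∃ m : ℝ, 0 < m ∧ m < κ ∧ m ≤ ‖y‖ :=
    ⟨min (κ / 2) ‖y‖, by positivity, lt_of_le_of_lt (min_le_left _ _) (by linarith),
      min_le_right _ _⟩
  obtain ⟨v, hvdef⟩ : ∃ v : E, v = (m / ‖v0‖) • v0 := ⟨_, rfl⟩
  have hvn : ‖v‖ = m := by
    rw [hvdef, norm_smul, Real.norm_of_nonneg (by positivity), div_mul_cancel₀ _ hv0n.ne']
  have hvy : inner ℝ v y = 0 := by rw [hvdef, inner_smul_left, hv0y, mul_zero]
  have hv : v ≠ 0 := by rw [← norm_pos_iff, hvn]; exact hm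
  have hnorm : ∀ a b : ℝ, ‖a • v + b • y‖ ^ 2 = a ^ 2 * ‖v‖ ^ 2 + b ^ 2 * ‖y‖ ^ 2 := by
    intro a b
    rw [norm_add_sq_real, inner_smul_left, inner_smul_right, hvy, norm_smul, norm_smul]
    simp only [mul_zero, add_zero, Real.norm_eq_abs, mul_pow, sq_abs]
  have hcurve : ∀ p q : E, Continuous fun s : ℝ => Φ (p + s • q) := fun p q =>
    h.emb.continuous.comp (continuous_const.add (continuous_id.smul continuous_const))
  have hconn : ∀ (p q : E) (a b : ℝ), a ≤ b →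
      IsConnected ((fun s : ℝ => Φ (p + s • q)) '' Icc a b) := fun p q a b hab =>
    (isConnected_Icc hab).image _ (hcurve p q).continuousOn
  have hcomp : ∀ (p q : E) (a b : ℝ), IsCompact ((fun s : ℝ => Φ (p + s • q)) '' Icc a b) :=
    fun p q a b => isCompact_Icc.image (hcurve p q)
  have hbig : ∀ a b : ℝ, ‖v‖ ^ 2 ≤ a ^ 2 * ‖v‖ ^ 2 + b ^ 2 * ‖y‖ ^ 2 →
      ‖v‖ ≤ ‖a • v + b • y‖ := by
    intro a b hab
    rw [← hnorm] at hab
    exact le_of_sq_le_sq hab (norm_nonneg _)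
  refine no_shadowing g Φ L h v hv ((fun s : ℝ => Φ (v + s • y)) '' Icc 0 1)
    ((fun s : ℝ => Φ (-v + s • y)) '' Icc 0 1) ((fun s : ℝ => Φ (y + s • v)) '' Icc (-1) 1)
    (hcomp _ _ _ _) (hconn _ _ _ _ zero_le_one) (hcomp _ _ _ _) (hconn _ _ _ _ zero_le_one)
    (hcomp _ _ _ _) (hconn _ _ _ _ (by norm_num)) ⟨0, by simp, by simp⟩ ⟨0, by simp, by simp⟩
    ?_ ?_ ?_ ?_ ?_ ?_ ?_
  · rw [Set.disjoint_left]
    rintro _ ⟨s, hs, rfl⟩ ⟨s', hs', hss⟩
    have h1 := h.emb.injective hss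
    have h2 : inner ℝ (-v + s' • y) v = inner ℝ (v + s • y) v := by rw [h1]
    rw [inner_add_left, inner_add_left, inner_neg_left, inner_smul_left, inner_smul_left,
      real_inner_comm v y, hvy, real_inner_self_eq_norm_sq] at h2
    have h3 : 0 < ‖v‖ ^ 2 := by rw [hvn]; positivity
    simp only [mul_zero, add_zero] at h2
    linarith
  · rintro x hx ⟨s, hs, hsx⟩
    have h1 := h.emb.injective hsx
    have h2 := hbig 1 s (by nlinarith [sq_nonneg (s * ‖y‖)])
    rw [one_smul, h1] at h2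
    linarith
  · rintro x hx ⟨s, hs, hsx⟩
    have h1 := h.emb.injective hsx
    have h2 := hbig (-1) s (by nlinarith [sq_nonneg (s * ‖y‖)])
    rw [neg_smul, one_smul, h1] at h2
    linarith
  · rintro x hx ⟨s, hs, hsx⟩
    have h1 := h.emb.injective hsx
    have h2 := hbig s 1 (by
      have h3 : ‖v‖ ^ 2 ≤ ‖y‖ ^ 2 := by rw [hvn]; gcongr
      nlinarith [sq_nonneg (s * ‖v‖)])
    rw [one_smul, add_comm, h1] at h2
    linarith
  · exact ⟨Φ (y + v), ⟨1, by constructor <;> norm_num, by simp⟩,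
      ⟨1, by constructor <;> norm_num, by simp [add_comm]⟩⟩
  · exact ⟨Φ (y - v), ⟨-1, by constructor <;> norm_num, by simp [sub_eq_add_neg]⟩,
      ⟨1, by constructor <;> norm_num, by simp [sub_eq_add_neg, add_comm]⟩⟩
  · intro δ hδ
    have hsub : (fun s : ℝ => Φ (y + s • v)) '' Icc (-1) 1 ⊆ range Ψ := by
      rintro _ ⟨s, hs, rfl⟩
      apply hball
      rw [mem_ball, dist_eq_norm, add_sub_cancel_left, norm_smul, hvn, Real.norm_eq_abs]
      have : |s| ≤ 1 := abs_le.2 hs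
      nlinarith
    obtain ⟨N, hN⟩ := h'.uniform (hcomp y v (-1) 1) hsub (half_pos hδ)
    refine ⟨N, fun n hn x hx z hz => ?_⟩
    have e1 := hN n hn x hx
    have e2 := hN n hn z hz
    rw [Homeomorph.symm_symm] at e1 e2
    have e3 := dist_triangle_right (g^[n] x) (g^[n] z) (Ψ 0)
    linarith

end highdim

end Pool.Agent.Helper82.MS
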