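import Pool.Agent.Helper82.MS.Key
import Pool.Agent.Helper82.MS.Lin

set_option autoImplicit false
set_option linter.unusedSectionVars false
set_option maxHeartbeats 4000000

open Set Filter Topology Metric
open scoped NNReal

namespace Pool.Agent.Helper82.MS

variable {M : Type*} [MetricSpace M] [CompactSpace M]
variable {E : Type*} [NormedAddCommGroup E] [NormedSpace ℝ E] [FiniteDimensional ℝ E]

theorem map_iterate_nhds {X : Type*} [TopologicalSpace X] (h : X ≃ₜ X) (n : ℕ) (x : X) :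
    map h^[n] (𝓝 x) = 𝓝 (h^[n] x) := by
  induction n generalizing x with
  | zero => simp
  | succ n ih =>
    rw [Function.iterate_succ, ← Filter.map_map, h.map_nhds_eq, ih]
    rfl

/-- a chart-level strict derivative gives a uniform Lipschitz bound for the nonlinear part -/
theorem exists_ball_approx {G : E → E} {L : E →L[ℝ] E} (hG : HasStrictFDerivAt G L 0) {η : ℝ}
    (hη : 0 < η) {s : Set E} (hs : s ∈ 𝓝 (0 : E)) :
    ∃ ρ : ℝ, 0 < ρ ∧ closedBall (0 : E) ρ ⊆ s ∧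
      ∀ a b : E, ‖a‖ ≤ ρ → ‖b‖ ≤ ρ → ‖G a - G b - L (a - b)‖ ≤ η * ‖a - b‖ := by
  obtain ⟨t, ht, h1⟩ := hG.approximates_deriv_on_nhds (c := Real.toNNReal η)
    (Or.inr (Real.toNNReal_pos.2 hη))
  obtain ⟨ρ, hρ, h2⟩ := Metric.nhds_basis_closedBall.mem_iff.1 (inter_mem ht hs)
  refine ⟨ρ, hρ, fun x hx => (h2 hx).2, fun a b ha hb => ?_⟩
  have h3 := h1 a (h2 (by simpa using ha)).1 b (h2 (by simpa using hb)).1
  rwa [Real.coe_toNNReal η hη.le] at h3

/-- Linearisation at a source, globalised along the unstable manifold. -/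
theorem exists_sourceModel (g : M ≃ₜ M) (r : M) (hr : g r = r) (e : OpenPartialHomeomorph M E)
    (hre : r ∈ e.source) (he0 : e r = 0) (L : E ≃L[ℝ] E)
    (hG : HasStrictFDerivAt (fun x => e (g (e.symm x))) (L : E →L[ℝ] E) 0)
    (hL : ∀ x, 8 * ‖x‖ ≤ ‖L x‖) : ∃ Φ : E → M, SourceModel g Φ L ∧ Φ 0 = r := by
  have hsymm0 : e.symm 0 = r := by rw [← he0, e.left_inv hre]
  have h0t : (0 : E) ∈ e.target := by rw [← he0]; exact e.map_source hre
  obtain ⟨G, hGdef⟩ : ∃ G : E → E, G = fun x => e (g (e.symm x)) := ⟨_, rfl⟩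
  rw [← hGdef] at hG
  have hGx : ∀ x, G x = e (g (e.symm x)) := fun x => by rw [hGdef]
  have hG0 : G 0 = 0 := by rw [hGx, hsymm0, hr, he0]
  have hnbhd : e.target ∩ {x | g (e.symm x) ∈ e.source} ∈ 𝓝 (0 : E) := by
    refine inter_mem (e.open_target.mem_nhds h0t) ?_
    have hc : ContinuousAt (fun x => g (e.symm x)) 0 :=
      g.continuous.continuousAt.comp (e.symm.continuousAt (by simpa using h0t))
    apply hc.preimage_mem_nhds
    rw [hsymm0, hr]
    exact e.open_source.mem_nhds hre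
  obtain ⟨ρ, hρ, hρs, hρG⟩ := exists_ball_approx hG (by norm_num : (0 : ℝ) < 1 / 2) hnbhd
  let ψ0 : E → E := fun x => G x - L x
  have hψ0 : ψ0 0 = 0 := by change G 0 - L 0 = 0; rw [hG0, map_zero, sub_zero]
  have hψ0lip : ∀ a b : E, ‖a‖ ≤ ρ → ‖b‖ ≤ ρ → ‖ψ0 a - ψ0 b‖ ≤ 1 / 2 * ‖a - b‖ := by
    intro a b ha hb
    have h1 := hρG a b ha hb
    have h2 : ψ0 a - ψ0 b = G a - G b - (L : E →L[ℝ] E) (a - b) := by
      change (G a - L a) - (G b - L b) = _
      rw [map_sub]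
      change _ = G a - G b - (L a - L b)
      abel
    rw [h2]; exact h1
  let ψ : E → E := fun x => ψ0 (retr ρ x)
  have hψlip : ∀ x y, ‖ψ x - ψ y‖ ≤ ‖x - y‖ := by
    intro x y
    have h1 := hψ0lip _ _ (norm_retr_le hρ.le x) (norm_retr_le hρ.le y)
    have h2 := retr_lip hρ.le x y
    change ‖ψ0 (retr ρ x) - ψ0 (retr ρ y)‖ ≤ _
    linarith
  have hψb : ∀ x, ‖ψ x‖ ≤ ρ := by
    intro x
    have h1 := hψ0lip (retr ρ x) 0 (norm_retr_le hρ.le x) (by rw [norm_zero]; exact hρ.le)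
    rw [hψ0, sub_zero, sub_zero] at h1
    have h2 := norm_retr_le hρ.le x
    change ‖ψ0 (retr ρ x)‖ ≤ ρ
    linarith
  have hψz : ψ 0 = 0 := by
    change ψ0 (retr ρ 0) = 0
    rw [retr_eq (by rw [norm_zero]; exact hρ.le), hψ0]
  obtain ⟨φ, hφ0, hφ⟩ := linearize L hL ψ hψb hψlip hψz
  have hφG : ∀ x, ‖φ x‖ ≤ ρ → G (φ x) = φ (L x) := by
    intro x hx
    rw [← hφ x]
    change G (φ x) = L (φ x) + ψ0 (retr ρ (φ x))
    rw [retr_eq hx]
    change G (φ x) = L (φ x) + (G (φ x) - L (φ x))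
    abel
  obtain ⟨ρ0, hρ0, hρ0φ⟩ : ∃ ρ0 : ℝ, 0 < ρ0 ∧ ∀ x, ‖x‖ < ρ0 → ‖φ x‖ ≤ ρ := by
    obtain ⟨ρ0, hρ0, h1⟩ := Metric.continuousAt_iff.1 (φ.continuous.continuousAt (x := 0)) ρ hρ
    refine ⟨ρ0, hρ0, fun x hx => ?_⟩
    have := h1 (x := x) (by rwa [dist_zero_right])
    rw [hφ0, dist_zero_right] at this
    exact this.le
  have hloc : ∀ x, ‖x‖ < ρ0 → g (e.symm (φ x)) = e.symm (φ (L x)) := by
    intro x hx
    have h1 := hρ0φ x hx
    have h2 := hρs (show φ x ∈ closedBall (0 : E) ρ by simpa using h1)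
    rw [← hφG x h1, hGx, e.left_inv h2.2]
  have htarget : ∀ x, ‖x‖ < ρ0 → φ x ∈ e.target := fun x hx =>
    (hρs (show φ x ∈ closedBall (0 : E) ρ by simpa using hρ0φ x hx)).1
  -- approximations
  let Φn : ℕ → E → M := fun n x => g^[n] (e.symm (φ (L.symm^[n] x)))
  have hLs : ∀ z : E, ‖L.symm z‖ ≤ ‖z‖ / 8 := norm_symm_le hL
  have hLsn : ∀ (n : ℕ) (z : E), 8 ^ n * ‖L.symm^[n] z‖ ≤ ‖z‖ := by
    intro n
    induction n with
    | zero => intro z; simp
    | succ n ih =>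
      intro z
      rw [Function.iterate_succ_apply]
      have h1 := ih (L.symm z)
      have h2 := hLs z
      have : (8 : ℝ) ^ (n + 1) * ‖L.symm^[n] (L.symm z)‖ = 8 * (8 ^ n * ‖L.symm^[n] (L.symm z)‖) := by
        ring
      rw [this]; linarith
  have hex : ∀ x : E, ∃ n : ℕ, ‖L.symm^[n] x‖ < ρ0 := by
    intro x
    obtain ⟨n, hn⟩ := pow_unbounded_of_one_lt (‖x‖ / ρ0) (by norm_num : (1 : ℝ) < 8)
    refine ⟨n, ?_⟩
    rw [div_lt_iff₀ hρ0] at hn
    have h1 := hLsn n x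
    by_contra hcon
    push Not at hcon
    have : (8 : ℝ) ^ n * ρ0 ≤ 8 ^ n * ‖L.symm^[n] x‖ := by gcongr
    linarith
  have hmono1 : ∀ (n : ℕ) (x : E), ‖L.symm^[n] x‖ < ρ0 → ‖L.symm^[n + 1] x‖ < ρ0 := by
    intro n x hx
    rw [Function.iterate_succ_apply']
    have h1 := hLs (L.symm^[n] x)
    have := norm_nonneg (L.symm^[n] x)
    linarith
  have hmono : ∀ (n m : ℕ) (x : E), n ≤ m → ‖L.symm^[n] x‖ < ρ0 → ‖L.symm^[m] x‖ < ρ0 := by
    intro n m x hnm hx
    induction m, hnm using Nat.le_induction with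
    | base => exact hx
    | succ m _ ih => exact hmono1 m x ih
  have hstep : ∀ (n : ℕ) (x : E), ‖L.symm^[n + 1] x‖ < ρ0 → Φn (n + 1) x = Φn n x := by
    intro n x hx
    change g^[n + 1] (e.symm (φ (L.symm^[n + 1] x))) = g^[n] (e.symm (φ (L.symm^[n] x)))
    rw [Function.iterate_succ_apply, hloc _ hx, Function.iterate_succ_apply', L.apply_symm_apply]
  have hstable : ∀ (n m : ℕ) (x : E), n ≤ m → ‖L.symm^[n] x‖ < ρ0 → Φn m x = Φn n x := by
    intro n m x hnm hx
    induction m, hnm using Nat.le_induction with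
    | base => rfl
    | succ m hm ih => rw [hstep m x (hmono n (m + 1) x (by omega) hx), ih]
  classical
  let Φ : E → M := fun x => Φn (Nat.find (hex x)) x
  have hΦ : ∀ (n : ℕ) (x : E), ‖L.symm^[n] x‖ < ρ0 → Φ x = Φn n x := by
    intro n x hx
    exact (hstable _ n x (Nat.find_min' (hex x) hx) (Nat.find_spec (hex x))).symm
  have hopenU : ∀ n : ℕ, IsOpen {x : E | ‖L.symm^[n] x‖ < ρ0} := fun n =>
    isOpen_lt (L.symm.continuous.iterate n).norm continuous_const
  have hev : ∀ (n : ℕ) (x : E), ‖L.symm^[n] x‖ < ρ0 → Φ =ᶠ[𝓝 x] Φn n := by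
    intro n x hx
    filter_upwards [(hopenU n).mem_nhds hx] with y hy
    exact hΦ n y hy
  have hcont : Continuous Φ := by
    rw [continuous_iff_continuousAt]
    intro x
    obtain ⟨n, hn⟩ := hex x
    refine ContinuousAt.congr ?_ (hev n x hn).symm
    have h1 : ContinuousAt e.symm (φ (L.symm^[n] x)) :=
      e.symm.continuousAt (by simpa using htarget _ hn)
    have h2 : ContinuousAt (fun y => φ (L.symm^[n] y)) x :=
      (φ.continuous.comp (L.symm.continuous.iterate n)).continuousAt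
    exact (g.continuous.iterate n).continuousAt.comp (ContinuousAt.comp (f := fun y => φ (L.symm^[n] y)) h1 h2)
  have hinj : Function.Injective Φ := by
    intro x y hxy
    obtain ⟨n, hn⟩ := hex x
    obtain ⟨m, hm⟩ := hex y
    have hx' := hmono n (max n m) x (le_max_left _ _) hn
    have hy' := hmono m (max n m) y (le_max_right _ _) hm
    rw [hΦ _ x hx', hΦ _ y hy'] at hxy
    have h1 := g.injective.iterate (max n m) hxy
    have h2 := e.symm.injOn (by simpa using htarget _ hx') (by simpa using htarget _ hy') h1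
    have h3 := φ.injective h2
    exact L.symm.injective.iterate (max n m) h3
  have hopen : IsOpenMap Φ := by
    apply IsOpenMap.of_nhds_le
    intro x
    obtain ⟨n, hn⟩ := hex x
    rw [Filter.map_congr (hev n x hn), hΦ n x hn]
    have h1 : Φn n = g^[n] ∘ e.symm ∘ φ ∘ L.symm^[n] := rfl
    have h2 : map (L.symm^[n]) (𝓝 x) = 𝓝 (L.symm^[n] x) :=
      map_iterate_nhds L.symm.toHomeomorph n x
    rw [h1, ← Filter.map_map, ← Filter.map_map, ← Filter.map_map, h2, φ.map_nhds_eq,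
      e.symm.map_nhds_eq (by simpa using htarget _ hn), map_iterate_nhds]
    rfl
  refine ⟨Φ, ⟨IsOpenEmbedding.of_continuous_injective_isOpenMap hcont hinj hopen, hL, ?_⟩, ?_⟩
  · intro x
    obtain ⟨n, hn⟩ := hex x
    have h1 : L.symm^[n + 1] (L x) = L.symm^[n] x := by
      rw [Function.iterate_succ_apply, L.symm_apply_apply]
    rw [hΦ n x hn, hΦ (n + 1) (L x) (by rw [h1]; exact hn)]
    change g (g^[n] (e.symm (φ (L.symm^[n] x)))) = g^[n + 1] (e.symm (φ (L.symm^[n + 1] (L x))))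
    rw [h1, Function.iterate_succ_apply']
  · rw [hΦ 0 0 (by simpa using hρ0)]
    change e.symm (φ 0) = r
    rw [hφ0, hsymm0]

end Pool.Agent.Helper82.MS
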